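import Mathlib
import Pool.Agent.K7.H74.WS.Sec

set_option autoImplicit false

/-! Waring's problem with almost all exponents: the mean square over the exponent of the exponential sum. -/

namespace Pool.Agent.K7.H89.WE
open Finset MeasureTheory Complex
open Pool.Agent.K7.H74.WS (e norm_e e_cont e_add e_neg e_sub e_zero e_lip osc tile int_neg double_sum)

/-- the exponent, bounded from below by one -/
noncomputable def qe (c : ℝ) : ℝ := max c 1

lemma qe_pos (c : ℝ) : 0 < qe c := lt_of_lt_of_le one_pos (le_max_right _ _)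
lemma qe_one (c : ℝ) : 1 ≤ qe c := le_max_right _ _
lemma qe_eq {c : ℝ} (h : 1 ≤ c) : qe c = c := max_eq_left h
lemma qe_cont : Continuous qe := by unfold qe; fun_prop

lemma pw_cont {T : Type} [TopologicalSpace T] {f g : T → ℝ} (hf : Continuous f) (hg : Continuous g) :
    Continuous fun t => (f t) ^ (qe (g t)) :=
  hf.rpow (qe_cont.comp hg) fun _ => Or.inr (qe_pos _)

/-- the exponential sum over the powers of `x`, `P ≤ x < 3 P` -/
noncomputable def S (P : ℕ) (α c : ℝ) : ℂ := ∑ x ∈ Ico P (3 * P), e (α * (x : ℝ) ^ qe c)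

/-- the integral over the same interval -/
noncomputable def M (P : ℕ) (α c : ℝ) : ℂ := ∫ u in (P : ℝ)..((3 * P : ℕ) : ℝ), e (α * u ^ qe c)

lemma S_cont (P : ℕ) : Continuous fun p : ℝ × ℝ => S P p.1 p.2 := by
  unfold S
  exact continuous_finsetSum _ fun x _ => e_cont.comp (continuous_fst.mul (pw_cont continuous_const continuous_snd))

lemma M_cont (P : ℕ) : Continuous fun p : ℝ × ℝ => M P p.1 p.2 := by
  unfold M
  apply intervalIntegral.continuous_parametric_intervalIntegral_of_continuous'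
  unfold Function.uncurry
  exact e_cont.comp ((continuous_fst.comp continuous_fst).mul (pw_cont continuous_snd (continuous_snd.comp continuous_fst)))

lemma S_cont2 (P : ℕ) (α : ℝ) : Continuous fun c : ℝ => S P α c :=
  (S_cont P).comp (by fun_prop : Continuous fun c : ℝ => ((α, c) : ℝ × ℝ))

lemma M_cont2 (P : ℕ) (α : ℝ) : Continuous fun c : ℝ => M P α c :=
  (M_cont P).comp (by fun_prop : Continuous fun c : ℝ => ((α, c) : ℝ × ℝ))

lemma M_le' (P : ℕ) (α c : ℝ) : ‖M P α c‖ ≤ 2 * P := by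
  unfold M
  have h := intervalIntegral.norm_integral_le_of_norm_le_const (a := (P : ℝ)) (b := ((3 * P : ℕ) : ℝ)) (C := 1)
    (f := fun u => e (α * u ^ qe c)) (fun u _ => (norm_e _).le)
  refine h.trans (le_of_eq ?_)
  push_cast
  rw [one_mul, show 3 * (P : ℝ) - P = 2 * P by ring, abs_of_nonneg (by positivity)]

/-- the integral over an interval away from zero -/
lemma tail_le {c A B : ℝ} (hc : 2 ≤ c) (hA : 0 < A) (hAB : A ≤ B) {α : ℝ} (hα : α ≠ 0) :
    ‖∫ u in A..B, e (α * u ^ c)‖ ≤ 1 / (|α| * A ^ (c - 1)) := by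
  have key : ∀ β : ℝ, 0 < β → ‖∫ u in A..B, e (β * u ^ c)‖ ≤ 1 / (β * A ^ (c - 1)) := by
    intro β hβ
    have hAp : 0 < A ^ (c - 1) := Real.rpow_pos_of_pos hA _
    have h1 := osc (a := A) (b := B) hAB
      (φ := fun u => 2 * Real.pi * (β * u ^ c))
      (φ1 := fun u => 2 * Real.pi * (β * (c * u ^ (c - 1))))
      (φ2 := fun u => 2 * Real.pi * (β * (c * ((c - 1) * u ^ (c - 1 - 1)))))
      (fun t => ((Real.hasDerivAt_rpow_const (Or.inr (by linarith))).const_mul β).const_mul (2 * Real.pi))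
      (fun t => ((((Real.hasDerivAt_rpow_const (Or.inr (by linarith))).const_mul c)).const_mul β).const_mul (2 * Real.pi))
      (by
        have : Continuous fun u : ℝ => u ^ (c - 1 - 1) := continuous_id.rpow_const fun x => Or.inr (by linarith)
        fun_prop)
      (fun t ht => by
        have h0 : 0 ≤ t := hA.le.trans ht.1
        have h2 : 0 ≤ t ^ (c - 1 - 1) := Real.rpow_nonneg h0 _
        have h3 : 0 ≤ c - 1 := by linarith
        have h4 : 0 ≤ c := by linarith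
        have := Real.pi_pos
        positivity)
      (l := 2 * (β * A ^ (c - 1))) (by positivity)
      (fun t ht => by
        have h2 : A ^ (c - 1) ≤ t ^ (c - 1) := Real.rpow_le_rpow hA.le ht.1 (by linarith)
        have h4 : (1 : ℝ) ≤ Real.pi := by have := Real.pi_gt_three; linarith
        have h5 : A ^ (c - 1) ≤ c * t ^ (c - 1) := by nlinarith
        have h6 : β * A ^ (c - 1) ≤ β * (c * t ^ (c - 1)) := mul_le_mul_of_nonneg_left h5 hβ.le
        have h7 : 0 ≤ β * (c * t ^ (c - 1)) := (by positivity : 0 ≤ β * A ^ (c - 1)).trans h6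
        nlinarith)
    have h2 : ∀ u : ℝ, e (β * u ^ c) = cexp (((fun u : ℝ => 2 * Real.pi * (β * u ^ c)) u : ℝ) * I) := fun u => rfl
    simp_rw [h2]
    refine h1.trans (le_of_eq ?_)
    field_simp
  rcases lt_or_gt_of_ne hα with h | h
  · have h1 : ∀ u : ℝ, α * u ^ c = -(-α * u ^ c) := fun u => by ring
    simp_rw [h1]
    rw [int_neg (f := fun u => -α * u ^ c), abs_of_neg h]
    exact key (-α) (by linarith)
  · rw [abs_of_pos h]
    exact key α h

lemma M_le {P : ℕ} (hP : 1 ≤ P) {a c : ℝ} (ha : 2 ≤ a) (hac : a ≤ c) {α : ℝ} (hα : α ≠ 0) :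
    ‖M P α c‖ ≤ 1 / (|α| * (P : ℝ) ^ (a - 1)) := by
  have hP0 : (0 : ℝ) < P := by exact_mod_cast hP
  have hP1 : (1 : ℝ) ≤ P := by exact_mod_cast hP
  have hα0 : 0 < |α| := abs_pos.2 hα
  unfold M
  rw [qe_eq (by linarith)]
  refine (tail_le (by linarith) hP0 (by push_cast; linarith) hα).trans ?_
  have h1 : (P : ℝ) ^ (a - 1) ≤ (P : ℝ) ^ (c - 1) := Real.rpow_le_rpow_of_exponent_le hP1 (by linarith)
  have h2 : 0 < (P : ℝ) ^ (a - 1) := Real.rpow_pos_of_pos hP0 _
  apply one_div_le_one_div_of_le (by positivity)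
  exact mul_le_mul_of_nonneg_left h1 hα0.le

/-- the correlation of two arguments -/
lemma corr {P y D : ℕ} (hP : 1 ≤ P) (hy : P ≤ y) (hD : 1 ≤ D) (hyD : y + D ≤ 3 * P) {a b : ℝ} (ha : 2 ≤ a) (hab : a ≤ b)
    {α : ℝ} (hα : α ≠ 0) :
    ‖∫ c in a..b, e (α * (((y + D : ℕ) : ℝ) ^ c - (y : ℝ) ^ c))‖ ≤ 1 / (|α| * (P : ℝ) ^ (a - 1)) * (1 / D) := by
  have hP0 : (0 : ℝ) < P := by exact_mod_cast hP
  have hP1 : (1 : ℝ) ≤ P := by exact_mod_cast hP
  have hy0 : (0 : ℝ) < y := by exact_mod_cast (by omega : 0 < y)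
  have hyP : (P : ℝ) ≤ y := by exact_mod_cast hy
  have hD0 : (0 : ℝ) < D := by exact_mod_cast hD
  have hx0 : (0 : ℝ) < ((y + D : ℕ) : ℝ) := by exact_mod_cast (by omega : 0 < y + D)
  obtain ⟨x, hx⟩ : ∃ x : ℝ, x = ((y + D : ℕ) : ℝ) := ⟨_, rfl⟩
  have hxy : x = y + D := by rw [hx]; push_cast; ring
  have hx3 : x ≤ 3 * y := by
    have : ((y + D : ℕ) : ℝ) ≤ ((3 * P : ℕ) : ℝ) := by exact_mod_cast hyD
    rw [← hx] at this
    push_cast at this
    linarith
  rw [← hx] at hx0 ⊢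
  have hly : 0 ≤ Real.log y := Real.log_nonneg (by linarith)
  have hlx : Real.log y ≤ Real.log x := Real.log_le_log hy0 (by linarith)
  have hPp : 0 < (P : ℝ) ^ (a - 1) := Real.rpow_pos_of_pos hP0 _
  have key : ∀ β : ℝ, 0 < β → ‖∫ c in a..b, e (β * (x ^ c - (y : ℝ) ^ c))‖ ≤ 1 / (β * (P : ℝ) ^ (a - 1)) * (1 / D) := by
    intro β hβ
    have h1 := osc (a := a) (b := b) hab
      (φ := fun c => 2 * Real.pi * (β * (x ^ c - (y : ℝ) ^ c)))
      (φ1 := fun c => 2 * Real.pi * (β * (x ^ c * Real.log x - (y : ℝ) ^ c * Real.log y)))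
      (φ2 := fun c => 2 * Real.pi * (β * (x ^ c * Real.log x * Real.log x - (y : ℝ) ^ c * Real.log y * Real.log y)))
      (fun t => (((Real.hasStrictDerivAt_const_rpow hx0 t).hasDerivAt.sub
        (Real.hasStrictDerivAt_const_rpow hy0 t).hasDerivAt).const_mul β).const_mul (2 * Real.pi))
      (fun t => ((((Real.hasStrictDerivAt_const_rpow hx0 t).hasDerivAt.mul_const (Real.log x)).sub
        ((Real.hasStrictDerivAt_const_rpow hy0 t).hasDerivAt.mul_const (Real.log y))).const_mul β).const_mul (2 * Real.pi))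
      (by
        have c1 : Continuous fun c : ℝ => x ^ c := Real.continuous_const_rpow hx0.ne'
        have c2 : Continuous fun c : ℝ => (y : ℝ) ^ c := Real.continuous_const_rpow hy0.ne'
        fun_prop)
      (fun t ht => by
        have ht0 : 0 ≤ t := by linarith [ht.1]
        have h2 : (y : ℝ) ^ t ≤ x ^ t := Real.rpow_le_rpow hy0.le (by linarith) ht0
        have h3 : 0 ≤ (y : ℝ) ^ t := Real.rpow_nonneg hy0.le _
        have h0x : 0 ≤ x ^ t := Real.rpow_nonneg hx0.le _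
        have h4' : (y : ℝ) ^ t * Real.log y ≤ x ^ t * Real.log x := mul_le_mul h2 hlx hly h0x
        have h4 : (y : ℝ) ^ t * Real.log y * Real.log y ≤ x ^ t * Real.log x * Real.log x :=
          mul_le_mul h4' hlx hly (mul_nonneg h0x (hly.trans hlx))
        have := Real.pi_pos
        have h5 : 0 ≤ x ^ t * Real.log x * Real.log x - (y : ℝ) ^ t * Real.log y * Real.log y := by linarith
        positivity)
      (l := 2 * (β * (P : ℝ) ^ (a - 1) * D)) (by positivity)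
      (fun t ht => by
        have ht0 : 0 ≤ t := by linarith [ht.1]
        have h2 : (y : ℝ) ^ t ≤ x ^ t := Real.rpow_le_rpow hy0.le (by linarith) ht0
        have h3 : 0 < (y : ℝ) ^ t := Real.rpow_pos_of_pos hy0 _
        -- `log (x / y) ≥ D / x`
        have h4 : (D : ℝ) / x ≤ Real.log x - Real.log y := by
          have := Real.one_sub_inv_le_log_of_pos (x := x / y) (by positivity)
          rw [Real.log_div hx0.ne' hy0.ne', inv_div] at this
          refine le_trans (le_of_eq ?_) this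
          rw [hxy]
          field_simp
          ring
        have h5 : (y : ℝ) ^ t * (D / x) ≤ x ^ t * Real.log x - (y : ℝ) ^ t * Real.log y := by
          have h6 : (y : ℝ) ^ t * Real.log x ≤ x ^ t * Real.log x :=
            mul_le_mul_of_nonneg_right h2 (hly.trans hlx)
          have h7 := mul_le_mul_of_nonneg_left h4 h3.le
          linarith
        have h6 : (P : ℝ) ^ (a - 1) * D / 3 ≤ (y : ℝ) ^ t * (D / x) := by
          have e1 : (y : ℝ) ^ t = (y : ℝ) ^ (t - 1) * y := by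
            rw [← Real.rpow_add_one hy0.ne']; congr 1; ring
          have e2 : (P : ℝ) ^ (a - 1) ≤ (y : ℝ) ^ (t - 1) :=
            (Real.rpow_le_rpow hP0.le hyP (by linarith)).trans
              (Real.rpow_le_rpow_of_exponent_le (by linarith) (by linarith [ht.1]))
          rw [e1, div_le_iff₀ (by norm_num : (0 : ℝ) < 3)]
          have e3 : (y : ℝ) ^ (t - 1) * y * (D / x) * 3 = (y : ℝ) ^ (t - 1) * D * (3 * y / x) := by
            field_simp
          rw [e3]
          have e4 : 1 ≤ 3 * (y : ℝ) / x := by rw [le_div_iff₀ hx0]; linarith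
          have e5 : (P : ℝ) ^ (a - 1) * D ≤ (y : ℝ) ^ (t - 1) * D := mul_le_mul_of_nonneg_right e2 hD0.le
          have e6 : 0 ≤ (y : ℝ) ^ (t - 1) * D := mul_nonneg (Real.rpow_nonneg hy0.le _) hD0.le
          nlinarith
        have h7 : (P : ℝ) ^ (a - 1) * D / 3 ≤ x ^ t * Real.log x - (y : ℝ) ^ t * Real.log y := h6.trans h5
        have h8 : (3 : ℝ) ≤ Real.pi := Real.pi_gt_three.le
        have h9 : β * ((P : ℝ) ^ (a - 1) * D / 3) ≤ β * (x ^ t * Real.log x - (y : ℝ) ^ t * Real.log y) :=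
          mul_le_mul_of_nonneg_left h7 hβ.le
        have h10 : 0 ≤ β * ((P : ℝ) ^ (a - 1) * D / 3) := by positivity
        calc 2 * (β * (P : ℝ) ^ (a - 1) * D) = 2 * 3 * (β * ((P : ℝ) ^ (a - 1) * D / 3)) := by ring
          _ ≤ 2 * Real.pi * (β * ((P : ℝ) ^ (a - 1) * D / 3)) := by
              apply mul_le_mul_of_nonneg_right _ h10
              linarith
          _ ≤ _ := mul_le_mul_of_nonneg_left h9 (by positivity))
    have h2 : ∀ c : ℝ, e (β * (x ^ c - (y : ℝ) ^ c)) = cexp (((fun c : ℝ => 2 * Real.pi * (β * (x ^ c - (y : ℝ) ^ c))) c : ℝ) * I) :=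
      fun u => rfl
    simp_rw [h2]
    refine h1.trans (le_of_eq ?_)
    field_simp
  rcases lt_or_gt_of_ne hα with h | h
  · have h1 : ∀ c : ℝ, α * (x ^ c - (y : ℝ) ^ c) = -(-α * (x ^ c - (y : ℝ) ^ c)) := fun u => by ring
    simp_rw [h1]
    rw [int_neg (f := fun c => -α * (x ^ c - (y : ℝ) ^ c)), abs_of_neg h]
    exact key (-α) (by linarith)
  · rw [abs_of_pos h]
    exact key α h

/-- the mean square over the exponent -/
theorem second {P : ℕ} (hP : 1 ≤ P) {a b : ℝ} (ha : 2 ≤ a) (hab : a ≤ b) (hb : b ≤ a + 1) {α : ℝ} (hα : α ≠ 0) :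
    ∫ c in a..b, ‖S P α c‖ ^ 2 ≤ 2 * P + 4 * (1 + Real.log (2 * P)) * ((P : ℝ) ^ (2 - a) / |α|) := by
  have hP0 : (0 : ℝ) < P := by exact_mod_cast hP
  have hα0 : 0 < |α| := abs_pos.2 hα
  set h : ℕ → ℕ → ℝ → ℂ := fun x y c => e (α * ((x : ℝ) ^ qe c - (y : ℝ) ^ qe c)) with hh
  have hhc : ∀ x y, Continuous (h x y) := fun x y => e_cont.comp
    (continuous_const.mul ((pw_cont continuous_const continuous_id).sub (pw_cont continuous_const continuous_id)))
  have h1 : ∀ c : ℝ, ((‖S P α c‖ ^ 2 : ℝ) : ℂ) = ∑ x ∈ Ico P (3 * P), ∑ y ∈ Ico P (3 * P), h x y c := by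
    intro c
    push_cast
    rw [← Complex.mul_conj', S, map_sum, sum_mul_sum]
    apply sum_congr rfl
    intro x _
    apply sum_congr rfl
    intro y _
    rw [hh]
    simp only
    rw [mul_sub, e_sub]
  have h2 : ((∫ c in a..b, ‖S P α c‖ ^ 2 : ℝ) : ℂ) =
      ∑ x ∈ Ico P (3 * P), ∑ y ∈ Ico P (3 * P), ∫ c in a..b, h x y c := by
    rw [← intervalIntegral.integral_ofReal]
    simp_rw [h1]
    rw [intervalIntegral.integral_finsetSum (fun x _ =>
      (continuous_finsetSum _ fun y _ => hhc x y).intervalIntegrable _ _)]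
    apply sum_congr rfl
    intro x _
    rw [intervalIntegral.integral_finsetSum (fun y _ => (hhc x y).intervalIntegrable _ _)]
  rw [double_sum] at h2
  have h3 : ∑ x ∈ Ico P (3 * P), ∫ c in a..b, h x x c = ((2 * P * (b - a) : ℝ) : ℂ) := by
    have e1 : ∀ x ∈ Ico P (3 * P), ∫ c in a..b, h x x c = ((b - a : ℝ) : ℂ) := by
      intro x _
      have : ∀ c : ℝ, h x x c = 1 := fun c => by
        rw [hh]; simp only [sub_self, mul_zero]; exact e_zero
      simp_rw [this]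
      simp
    rw [sum_congr rfl e1, sum_const, Nat.card_Ico, show 3 * P - P = 2 * P by omega, nsmul_eq_mul]
    push_cast
    ring
  have h4 : ∀ D ∈ Ico 1 (3 * P - P), ‖∑ y ∈ Ico P (3 * P - D), ((∫ c in a..b, h (y + D) y c) + ∫ c in a..b, h y (y + D) c)‖ ≤
      4 * ((P : ℝ) ^ (2 - a) / |α|) * (1 / D) := by
    intro D hD
    rw [mem_Ico] at hD
    refine (norm_sum_le _ _).trans ?_
    have e1 : ∀ y ∈ Ico P (3 * P - D), ‖((∫ c in a..b, h (y + D) y c) + ∫ c in a..b, h y (y + D) c)‖ ≤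
        2 * (1 / (|α| * (P : ℝ) ^ (a - 1)) * (1 / D)) := by
      intro y hy
      rw [mem_Ico] at hy
      refine (norm_add_le _ _).trans ?_
      have c1 := corr (P := P) (y := y) (D := D) hP hy.1 hD.1 (by omega) ha hab hα
      have c2 := corr (P := P) (y := y) (D := D) hP hy.1 hD.1 (by omega) ha hab (neg_ne_zero.2 hα)
      rw [abs_neg] at c2
      have d1 : ∫ c in a..b, h (y + D) y c = ∫ c in a..b, e (α * (((y + D : ℕ) : ℝ) ^ c - (y : ℝ) ^ c)) := by
        apply intervalIntegral.integral_congr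
        intro c hc
        rw [Set.uIcc_of_le hab] at hc
        simp only [hh]
        rw [qe_eq (by linarith [hc.1])]
      have d2 : ∫ c in a..b, h y (y + D) c = ∫ c in a..b, e (-α * (((y + D : ℕ) : ℝ) ^ c - (y : ℝ) ^ c)) := by
        apply intervalIntegral.integral_congr
        intro c hc
        rw [Set.uIcc_of_le hab] at hc
        simp only [hh]
        rw [qe_eq (by linarith [hc.1])]
        congr 1
        ring
      rw [d1, d2]
      linarith
    refine (sum_le_sum e1).trans ?_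
    rw [sum_const, Nat.card_Ico, nsmul_eq_mul]
    have e2 : ((3 * P - D - P : ℕ) : ℝ) ≤ 2 * P := by exact_mod_cast (by omega : 3 * P - D - P ≤ 2 * P)
    have hPp : 0 < (P : ℝ) ^ (a - 1) := Real.rpow_pos_of_pos hP0 _
    have hD0 : (0 : ℝ) < D := by exact_mod_cast hD.1
    refine (mul_le_mul_of_nonneg_right e2 (by positivity)).trans (le_of_eq ?_)
    have e3 : (P : ℝ) ^ (2 - a) = P / (P : ℝ) ^ (a - 1) := by
      rw [eq_div_iff hPp.ne', ← Real.rpow_add hP0]
      rw [show 2 - a + (a - 1) = 1 by ring, Real.rpow_one]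
    rw [e3]
    field_simp
    ring
  have h5 : ‖((∫ c in a..b, ‖S P α c‖ ^ 2 : ℝ) : ℂ)‖ ≤ 2 * P + 4 * ((P : ℝ) ^ (2 - a) / |α|) * (1 + Real.log (2 * P)) := by
    rw [h2, h3]
    refine (norm_add_le _ _).trans ?_
    have e1 : ‖((2 * P * (b - a) : ℝ) : ℂ)‖ ≤ 2 * P := by
      rw [Complex.norm_real, Real.norm_of_nonneg (mul_nonneg (by positivity) (by linarith))]
      nlinarith
    have e2 : ‖∑ D ∈ Ico 1 (3 * P - P), ∑ y ∈ Ico P (3 * P - D), ((∫ c in a..b, h (y + D) y c) + ∫ c in a..b, h y (y + D) c)‖ ≤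
        4 * ((P : ℝ) ^ (2 - a) / |α|) * (1 + Real.log (2 * P)) := by
      refine (norm_sum_le _ _).trans ((sum_le_sum h4).trans ?_)
      rw [← mul_sum]
      have hpp : 0 ≤ (P : ℝ) ^ (2 - a) := Real.rpow_nonneg hP0.le _
      apply mul_le_mul_of_nonneg_left _ (by positivity)
      have e3 : ∑ D ∈ Ico 1 (3 * P - P), 1 / (D : ℝ) ≤ ((harmonic (2 * P) : ℚ) : ℝ) := by
        rw [harmonic]
        push_cast
        rw [show 3 * P - P = 2 * P by omega, Finset.sum_Ico_eq_sum_range]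
        have e4 : ∀ i ∈ range (2 * P - 1), 1 / (((1 + i : ℕ)) : ℝ) = ((i : ℝ) + 1)⁻¹ := by
          intro i _
          rw [one_div]
          congr 1
          push_cast
          ring
        rw [sum_congr rfl e4]
        apply sum_le_sum_of_subset_of_nonneg
        · intro i hi
          rw [mem_range] at hi ⊢
          omega
        · intro i _ _
          positivity
      refine e3.trans ?_
      have := harmonic_le_one_add_log (2 * P)
      refine this.trans (le_of_eq ?_)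
      push_cast
      rfl
    linarith
  rw [Complex.norm_real] at h5
  refine (le_abs_self _).trans (h5.trans (le_of_eq ?_))
  ring

/-- the trivial bound for the deviation -/
lemma dev {P : ℕ} (hP : 1 ≤ P) (α : ℝ) {b c : ℝ} (hc : 1 ≤ c) (hcb : c ≤ b) :
    ‖S P α c - M P α c‖ ≤ 2 * Real.pi * (|α| * (3 * P : ℝ) ^ b) := by
  have hP0 : (0 : ℝ) < P := by exact_mod_cast hP
  have hP1 : (1 : ℝ) ≤ P := by exact_mod_cast hP
  have hcu : Continuous fun u : ℝ => e (α * u ^ qe c) := e_cont.comp (continuous_const.mul (pw_cont continuous_id continuous_const))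
  have e1 : M P α c = ∑ x ∈ Ico P (3 * P), ∫ t in (0 : ℝ)..1, e (α * ((x : ℝ) + t) ^ qe c) := by
    rw [M]
    exact (tile (fun u => e (α * u ^ qe c)) hcu (by omega)).symm
  have e2 : S P α c = ∑ x ∈ Ico P (3 * P), ∫ t in (0 : ℝ)..1, e (α * (x : ℝ) ^ qe c) := by
    rw [S]
    apply sum_congr rfl
    intro x _
    simp
  rw [e1, e2, ← sum_sub_distrib]
  have e3 : ∀ x ∈ Ico P (3 * P), ‖(∫ t in (0 : ℝ)..1, e (α * (x : ℝ) ^ qe c)) -
      ∫ t in (0 : ℝ)..1, e (α * ((x : ℝ) + t) ^ qe c)‖ ≤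
      2 * Real.pi * (|α| * (((x + 1 : ℕ) : ℝ) ^ c - (x : ℝ) ^ c)) := by
    intro x hx
    rw [mem_Ico] at hx
    have hx0 : (0 : ℝ) < x := by exact_mod_cast (by omega : 0 < x)
    have hc1 : Continuous fun t : ℝ => e (α * ((x : ℝ) + t) ^ qe c) := hcu.comp (by fun_prop : Continuous fun t : ℝ => (x : ℝ) + t)
    have hc' : Continuous fun _ : ℝ => e (α * (x : ℝ) ^ qe c) := continuous_const
    rw [← intervalIntegral.integral_sub (hc'.intervalIntegrable _ _) (hc1.intervalIntegrable _ _)]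
    have e4 : ∀ t ∈ Set.uIoc (0 : ℝ) 1, ‖e (α * (x : ℝ) ^ qe c) - e (α * ((x : ℝ) + t) ^ qe c)‖ ≤
        2 * Real.pi * (|α| * (((x + 1 : ℕ) : ℝ) ^ c - (x : ℝ) ^ c)) := by
      intro t ht
      rw [Set.uIoc_of_le zero_le_one] at ht
      rw [qe_eq hc]
      refine (e_lip _ _).trans ?_
      apply mul_le_mul_of_nonneg_left _ (by positivity)
      rw [← mul_sub, abs_mul]
      apply mul_le_mul_of_nonneg_left _ (abs_nonneg _)
      have a1 : (x : ℝ) ^ c ≤ ((x : ℝ) + t) ^ c := Real.rpow_le_rpow hx0.le (by linarith [ht.1]) (by linarith)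
      have a2 : ((x : ℝ) + t) ^ c ≤ ((x + 1 : ℕ) : ℝ) ^ c := by
        apply Real.rpow_le_rpow (by linarith [ht.1]) _ (by linarith)
        push_cast
        linarith [ht.2]
      rw [abs_sub_comm, abs_of_nonneg (by linarith)]
      linarith
    have := intervalIntegral.norm_integral_le_of_norm_le_const e4
    simpa using this
  refine (norm_sum_le _ _).trans ((sum_le_sum e3).trans ?_)
  rw [← mul_sum, ← mul_sum, Finset.sum_Ico_sub (fun x : ℕ => (x : ℝ) ^ c) (by omega : P ≤ 3 * P)]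
  apply mul_le_mul_of_nonneg_left _ (by positivity)
  apply mul_le_mul_of_nonneg_left _ (abs_nonneg _)
  have h1 : 0 ≤ (P : ℝ) ^ c := Real.rpow_nonneg hP0.le _
  have h2 : (((3 * P : ℕ)) : ℝ) ^ c ≤ (3 * P : ℝ) ^ b := by
    push_cast
    exact Real.rpow_le_rpow_of_exponent_le (by linarith) hcb
  linarith

/-- from the mean square to the mean -/
lemma mean_of_sq {f : ℝ → ℝ} (hf : Continuous f) {a b : ℝ} (hab : a ≤ b) (hb : b ≤ a + 1) {Y : ℝ} (hY : 0 < Y)
    (h : ∫ c in a..b, f c ^ 2 ≤ Y ^ 2) : ∫ c in a..b, f c ≤ Y := by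
  have h1 : ∫ c in a..b, f c ≤ ∫ c in a..b, (1 / (2 * Y) * f c ^ 2 + Y / 2) := by
    apply intervalIntegral.integral_mono_on hab (hf.intervalIntegrable _ _)
    · exact (by fun_prop : Continuous fun c => 1 / (2 * Y) * f c ^ 2 + Y / 2).intervalIntegrable _ _
    · intro c _
      have : 0 ≤ (f c - Y) ^ 2 := sq_nonneg _
      have e1 : 1 / (2 * Y) * f c ^ 2 + Y / 2 - f c = (f c - Y) ^ 2 / (2 * Y) := by
        field_simp
        ring
      have : 0 ≤ (f c - Y) ^ 2 / (2 * Y) := by positivity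
      linarith
  rw [intervalIntegral.integral_add ((by fun_prop : Continuous fun c => 1 / (2 * Y) * f c ^ 2).intervalIntegrable _ _)
    (by simp), intervalIntegral.integral_const_mul] at h1
  rw [intervalIntegral.integral_const, smul_eq_mul] at h1
  have h2 : 1 / (2 * Y) * ∫ c in a..b, f c ^ 2 ≤ 1 / (2 * Y) * Y ^ 2 := mul_le_mul_of_nonneg_left h (by positivity)
  have h3 : 1 / (2 * Y) * Y ^ 2 = Y / 2 := by field_simp
  have h4 : (b - a) * (Y / 2) ≤ Y / 2 := by nlinarith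
  linarith

/-- the mean deviation for one block -/
noncomputable def DB (P : ℕ) (α a b : ℝ) : ℝ := ∫ c in a..b, ‖S P α c - M P α c‖

lemma DB_triv {P : ℕ} (hP : 1 ≤ P) (α : ℝ) {a b : ℝ} (ha : 2 ≤ a) (hab : a ≤ b) (hb : b ≤ a + 1) :
    DB P α a b ≤ 2 * Real.pi * (|α| * (3 * P : ℝ) ^ b) := by
  have hP0 : (0 : ℝ) < P := by exact_mod_cast hP
  have h : DB P α a b ≤ ∫ c in a..b, 2 * Real.pi * (|α| * (3 * P : ℝ) ^ b) := by
    unfold DB
    apply intervalIntegral.integral_mono_on hab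
    · exact ((S_cont2 _ α).sub (M_cont2 _ α)).norm.intervalIntegrable _ _
    · exact intervalIntegrable_const
    · intro c hc
      exact dev hP α (by linarith [hc.1]) hc.2
  rw [intervalIntegral.integral_const, smul_eq_mul] at h
  have h2 : 0 ≤ 2 * Real.pi * (|α| * (3 * P : ℝ) ^ b) := by
    have := Real.pi_pos
    have : 0 ≤ (3 * P : ℝ) ^ b := Real.rpow_nonneg (by positivity) _
    positivity
  nlinarith

lemma DB_sq {P : ℕ} (hP : 1 ≤ P) {a b : ℝ} (ha : 2 ≤ a) (hab : a ≤ b) (hb : b ≤ a + 1) {α : ℝ} (hα : α ≠ 0) :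
    ∫ c in a..b, ‖S P α c - M P α c‖ ^ 2 ≤ 4 * P + 12 * (1 + Real.log (2 * P)) * ((P : ℝ) ^ (2 - a) / |α|) := by
  have hP0 : (0 : ℝ) < P := by exact_mod_cast hP
  have hP1 : (1 : ℝ) ≤ P := by exact_mod_cast hP
  have hα0 : 0 < |α| := abs_pos.2 hα
  have hPp : 0 < (P : ℝ) ^ (a - 1) := Real.rpow_pos_of_pos hP0 _
  have e3 : (P : ℝ) ^ (2 - a) = P / (P : ℝ) ^ (a - 1) := by
    rw [eq_div_iff hPp.ne', ← Real.rpow_add hP0]
    rw [show 2 - a + (a - 1) = 1 by ring, Real.rpow_one]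
  have hB0 : 0 ≤ (P : ℝ) ^ (2 - a) / |α| := div_nonneg (Real.rpow_nonneg hP0.le _) hα0.le
  have hS := S_cont2 P α
  have hM := M_cont2 P α
  have h1 : ∫ c in a..b, ‖S P α c - M P α c‖ ^ 2 ≤ ∫ c in a..b, (2 * ‖S P α c‖ ^ 2 + 4 * ((P : ℝ) ^ (2 - a) / |α|)) := by
    apply intervalIntegral.integral_mono_on hab
    · exact (by fun_prop : Continuous fun c => ‖S P α c - M P α c‖ ^ 2).intervalIntegrable _ _
    · exact (by fun_prop : Continuous fun c => 2 * ‖S P α c‖ ^ 2 + 4 * ((P : ℝ) ^ (2 - a) / |α|)).intervalIntegrable _ _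
    · intro c hc
      have h2 := norm_sub_le (S P α c) (M P α c)
      have h3 := M_le (c := c) hP ha hc.1 hα
      have h4 := M_le' P α c
      have h5 : ‖M P α c‖ ^ 2 ≤ 2 * P * (1 / (|α| * (P : ℝ) ^ (a - 1))) := by
        rw [pow_two]
        exact mul_le_mul h4 h3 (norm_nonneg _) (by positivity)
      have h6 : 2 * P * (1 / (|α| * (P : ℝ) ^ (a - 1))) = 2 * ((P : ℝ) ^ (2 - a) / |α|) := by
        rw [e3]; field_simp
      have h7 : ‖S P α c - M P α c‖ ^ 2 ≤ (‖S P α c‖ + ‖M P α c‖) ^ 2 := pow_le_pow_left₀ (norm_nonneg _) h2 _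
      nlinarith [sq_nonneg (‖S P α c‖ - ‖M P α c‖)]
  rw [intervalIntegral.integral_add ((by fun_prop : Continuous fun c => 2 * ‖S P α c‖ ^ 2).intervalIntegrable _ _)
    (by simp), intervalIntegral.integral_const_mul, intervalIntegral.integral_const, smul_eq_mul] at h1
  have h2 := second hP ha hab hb hα
  have h3 : (b - a) * (4 * ((P : ℝ) ^ (2 - a) / |α|)) ≤ 4 * ((P : ℝ) ^ (2 - a) / |α|) := by nlinarith
  have h4 : 0 ≤ Real.log (2 * P) := Real.log_nonneg (by linarith)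
  nlinarith [mul_nonneg h4 hB0]

/-- the constant -/
noncomputable def KB (b : ℝ) : ℝ := 2 * Real.pi * 3 ^ b + 5

lemma KB_ge (b : ℝ) : 5 ≤ KB b := by
  unfold KB
  have := Real.pi_pos
  have : 0 ≤ (3 : ℝ) ^ b := Real.rpow_nonneg (by norm_num) _
  have : 0 ≤ 2 * Real.pi * (3 : ℝ) ^ b := by positivity
  linarith

lemma triv_small {P : ℕ} (hP : 1 ≤ P) (α : ℝ) {a b Y Λ : ℝ} (ha : 2 ≤ a) (hab : a ≤ b) (hb : b ≤ a + 1) (hΛ : 1 ≤ Λ)
    (hY : 0 ≤ Y) (h : |α| * (P : ℝ) ^ b ≤ Y) : DB P α a b ≤ KB b * Λ * Y := by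
  have hP0 : (0 : ℝ) < P := by exact_mod_cast hP
  have h3 : 0 < (3 : ℝ) ^ b := Real.rpow_pos_of_pos (by norm_num) _
  have hpi := Real.pi_pos
  refine (DB_triv hP α ha hab hb).trans ?_
  rw [Real.mul_rpow (by norm_num) hP0.le]
  calc 2 * Real.pi * (|α| * ((3 : ℝ) ^ b * (P : ℝ) ^ b)) = 2 * Real.pi * 3 ^ b * (|α| * (P : ℝ) ^ b) := by ring
    _ ≤ 2 * Real.pi * 3 ^ b * Y := mul_le_mul_of_nonneg_left h (by positivity)
    _ ≤ KB b * Y := by
        apply mul_le_mul_of_nonneg_right _ hY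
        unfold KB
        linarith
    _ ≤ KB b * Λ * Y := by
        apply mul_le_mul_of_nonneg_right _ hY
        have := KB_ge b
        nlinarith

/-- one block, all frequencies -/
lemma DB_all {P : ℕ} (hP : 1 ≤ P) {α a b N Λ : ℝ} (ha : 2 ≤ a) (hab : a ≤ b) (hb : b ≤ a + 1 / 4) (hα : α ≠ 0)
    (hPN : (P : ℝ) ≤ N) (hΛ : 1 + Real.log (2 * P) ≤ Λ) : DB P α a b ≤ KB b * Λ * N ^ (3 / 4 : ℝ) := by
  have hP0 : (0 : ℝ) < P := by exact_mod_cast hP
  have hP1 : (1 : ℝ) ≤ P := by exact_mod_cast hP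
  have hN1 : 1 ≤ N := hP1.trans hPN
  have hN0 : 0 < N := by linarith
  have hα0 : 0 < |α| := abs_pos.2 hα
  have hlog : 0 ≤ Real.log (2 * P) := Real.log_nonneg (by linarith)
  have hΛ1 : 1 ≤ Λ := by linarith
  have hNp : 0 < N ^ (3 / 4 : ℝ) := Real.rpow_pos_of_pos hN0 _
  rcases le_or_gt (|α| * (P : ℝ) ^ b) (N ^ (3 / 4 : ℝ)) with h | h
  · exact triv_small hP α ha hab (by linarith) hΛ1 hNp.le h
  · have hPb : 0 < (P : ℝ) ^ b := Real.rpow_pos_of_pos hP0 _
    have hB : (P : ℝ) ^ (2 - a) / |α| ≤ N ^ (3 / 2 : ℝ) := by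
      rw [div_le_iff₀ hα0]
      have h1 : (P : ℝ) ^ (2 - a) * (P : ℝ) ^ b ≤ N ^ (9 / 4 : ℝ) := by
        rw [← Real.rpow_add hP0]
        calc (P : ℝ) ^ (2 - a + b) ≤ (P : ℝ) ^ (9 / 4 : ℝ) := Real.rpow_le_rpow_of_exponent_le hP1 (by linarith)
          _ ≤ N ^ (9 / 4 : ℝ) := Real.rpow_le_rpow hP0.le hPN (by norm_num)
      have h2 : N ^ (9 / 4 : ℝ) = N ^ (3 / 2 : ℝ) * N ^ (3 / 4 : ℝ) := by
        rw [← Real.rpow_add hN0]; norm_num
      have h3 : N ^ (3 / 2 : ℝ) * N ^ (3 / 4 : ℝ) ≤ N ^ (3 / 2 : ℝ) * (|α| * (P : ℝ) ^ b) :=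
        mul_le_mul_of_nonneg_left h.le (Real.rpow_nonneg hN0.le _)
      have h4 : (P : ℝ) ^ (2 - a) * (P : ℝ) ^ b ≤ (N ^ (3 / 2 : ℝ) * |α|) * (P : ℝ) ^ b := by
        calc _ ≤ _ := h1
          _ = _ := h2
          _ ≤ _ := h3
          _ = _ := by ring
      exact le_of_mul_le_mul_right h4 hPb
    have h5 : ∫ c in a..b, ‖S P α c - M P α c‖ ^ 2 ≤ (5 * Λ * N ^ (3 / 4 : ℝ)) ^ 2 := by
      refine (DB_sq hP ha hab (by linarith) hα).trans ?_
      have e1 : (N ^ (3 / 4 : ℝ)) ^ 2 = N ^ (3 / 2 : ℝ) := by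
        rw [← Real.rpow_natCast, ← Real.rpow_mul hN0.le]; norm_num
      have e2 : N ≤ N ^ (3 / 2 : ℝ) := by
        calc N = N ^ (1 : ℝ) := (Real.rpow_one N).symm
          _ ≤ _ := Real.rpow_le_rpow_of_exponent_le hN1 (by norm_num)
      have e3 : 0 ≤ N ^ (3 / 2 : ℝ) := Real.rpow_nonneg hN0.le _
      rw [mul_pow, mul_pow, e1]
      have e4 : 12 * (1 + Real.log (2 * P)) * ((P : ℝ) ^ (2 - a) / |α|) ≤ 12 * Λ * N ^ (3 / 2 : ℝ) := by
        apply mul_le_mul (by linarith) hB (div_nonneg (Real.rpow_nonneg hP0.le _) hα0.le) (by positivity)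
      have e5 : Λ * N ^ (3 / 2 : ℝ) ≤ Λ ^ 2 * N ^ (3 / 2 : ℝ) := by
        apply mul_le_mul_of_nonneg_right _ e3
        nlinarith
      have e6 : N ^ (3 / 2 : ℝ) ≤ Λ * N ^ (3 / 2 : ℝ) := le_mul_of_one_le_left e3 hΛ1
      nlinarith
    have hS := S_cont2 P α
    have hM := M_cont2 P α
    refine (mean_of_sq (by fun_prop) hab (by linarith) (by positivity) h5).trans ?_
    apply mul_le_mul_of_nonneg_right _ hNp.le
    apply mul_le_mul_of_nonneg_right (KB_ge b) (by linarith)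

/-- one block, the sharp bound -/
lemma DB_sharp {P : ℕ} (hP : 1 ≤ P) {α a b Y Λ : ℝ} (ha : 2 ≤ a) (hab : a ≤ b) (hb : b ≤ a + 1) (hα : α ≠ 0)
    (hY : 1 ≤ Y) (hPY : (P : ℝ) ≤ 3 * Y ^ 2) (hαY : 1 ≤ |α| * Y ^ a) (hΛ : 1 + Real.log (2 * P) ≤ Λ) :
    DB P α a b ≤ KB b * Λ * Y := by
  have hP0 : (0 : ℝ) < P := by exact_mod_cast hP
  have hP1 : (1 : ℝ) ≤ P := by exact_mod_cast hP
  have hY0 : 0 < Y := by linarith
  have hα0 : 0 < |α| := abs_pos.2 hα
  have hlog : 0 ≤ Real.log (2 * P) := Real.log_nonneg (by linarith)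
  have hΛ1 : 1 ≤ Λ := by linarith
  rcases le_or_gt (|α| * (P : ℝ) ^ b) Y with h | h
  · exact triv_small hP α ha hab (by linarith) hΛ1 hY0.le h
  · have hPb : 0 < (P : ℝ) ^ b := Real.rpow_pos_of_pos hP0 _
    have hB : (P : ℝ) ^ (2 - a) / |α| ≤ Y ^ 2 := by
      rw [div_le_iff₀ hα0]
      rcases le_or_gt Y P with h1 | h1
      · have h2 : (P : ℝ) ^ (2 - a) ≤ Y ^ (2 - a) := Real.rpow_le_rpow_of_nonpos hY0 h1 (by linarith)
        have h3 : Y ^ (2 - a) * Y ^ a = Y ^ 2 := by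
          rw [← Real.rpow_add hY0, ← Real.rpow_natCast]; congr 1; push_cast; ring
        have h4 : Y ^ (2 - a) ≤ Y ^ (2 - a) * (|α| * Y ^ a) := le_mul_of_one_le_right (Real.rpow_nonneg hY0.le _) hαY
        calc _ ≤ _ := h2
          _ ≤ _ := h4
          _ = _ := by rw [← h3]; ring
      · have h2 : (P : ℝ) ^ (2 - a) * (P : ℝ) ^ b ≤ Y ^ 3 := by
          rw [← Real.rpow_add hP0]
          calc (P : ℝ) ^ (2 - a + b) ≤ (P : ℝ) ^ (3 : ℝ) := Real.rpow_le_rpow_of_exponent_le hP1 (by linarith)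
            _ ≤ Y ^ (3 : ℝ) := Real.rpow_le_rpow hP0.le h1.le (by norm_num)
            _ = Y ^ 3 := by rw [← Real.rpow_natCast]; norm_num
        have h4 : (P : ℝ) ^ (2 - a) * (P : ℝ) ^ b ≤ (Y ^ 2 * |α|) * (P : ℝ) ^ b := by
          calc _ ≤ _ := h2
            _ = Y ^ 2 * Y := by ring
            _ ≤ Y ^ 2 * (|α| * (P : ℝ) ^ b) := mul_le_mul_of_nonneg_left h.le (by positivity)
            _ = _ := by ring
        exact le_of_mul_le_mul_right h4 hPb
    have h5 : ∫ c in a..b, ‖S P α c - M P α c‖ ^ 2 ≤ (5 * Λ * Y) ^ 2 := by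
      refine (DB_sq hP ha hab hb hα).trans ?_
      have e4 : 12 * (1 + Real.log (2 * P)) * ((P : ℝ) ^ (2 - a) / |α|) ≤ 12 * Λ * Y ^ 2 := by
        apply mul_le_mul (by linarith) hB (div_nonneg (Real.rpow_nonneg hP0.le _) hα0.le) (by positivity)
      have e3 : 0 ≤ Y ^ 2 := sq_nonneg _
      have e5 : Λ * Y ^ 2 ≤ Λ ^ 2 * Y ^ 2 := by
        apply mul_le_mul_of_nonneg_right _ e3
        nlinarith
      have e6 : Y ^ 2 ≤ Λ * Y ^ 2 := le_mul_of_one_le_left e3 hΛ1
      nlinarith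
    have hS := S_cont2 P α
    have hM := M_cont2 P α
    refine (mean_of_sq (by fun_prop) hab hb (by positivity) h5).trans ?_
    apply mul_le_mul_of_nonneg_right _ hY0.le
    apply mul_le_mul_of_nonneg_right (KB_ge b) (by linarith)

end Pool.Agent.K7.H89.WE
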