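import Mathlib
import Pool.Agent.K7.H89.WE.A
import Pool.Agent.K7.H74.WS.Full

set_option autoImplicit false

/-! Waring's problem with almost all exponents: the exponential sum over a full interval. -/

namespace Pool.Agent.K7.H89.WE
open Finset MeasureTheory Complex
open Pool.Agent.K7.H74.WS (e norm_e e_cont e_add e_neg e_sub e_zero e_lip osc tile int_neg double_sum log_block)

/-- the exponential sum over the powers of `x`, `0 ≤ x < 3 ^ J` -/
noncomputable def SF (J : ℕ) (α c : ℝ) : ℂ := ∑ x ∈ range (3 ^ J), e (α * (x : ℝ) ^ qe c)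

/-- the integral -/
noncomputable def MF (J : ℕ) (α c : ℝ) : ℂ := ∫ u in (0 : ℝ)..((3 ^ J : ℕ) : ℝ), e (α * u ^ qe c)

/-- the mean deviation -/
noncomputable def DF (J : ℕ) (α a b : ℝ) : ℝ := ∫ c in a..b, ‖SF J α c - MF J α c‖

lemma SF_cont (J : ℕ) : Continuous fun p : ℝ × ℝ => SF J p.1 p.2 := by
  unfold SF
  exact continuous_finsetSum _ fun x _ => e_cont.comp (continuous_fst.mul (pw_cont continuous_const continuous_snd))

lemma MF_cont (J : ℕ) : Continuous fun p : ℝ × ℝ => MF J p.1 p.2 := by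
  unfold MF
  apply intervalIntegral.continuous_parametric_intervalIntegral_of_continuous'
  unfold Function.uncurry
  exact e_cont.comp ((continuous_fst.comp continuous_fst).mul (pw_cont continuous_snd (continuous_snd.comp continuous_fst)))

lemma SF_cont2 (J : ℕ) (α : ℝ) : Continuous fun c : ℝ => SF J α c :=
  (SF_cont J).comp (by fun_prop : Continuous fun c : ℝ => ((α, c) : ℝ × ℝ))

lemma MF_cont2 (J : ℕ) (α : ℝ) : Continuous fun c : ℝ => MF J α c :=
  (MF_cont J).comp (by fun_prop : Continuous fun c : ℝ => ((α, c) : ℝ × ℝ))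

lemma SF_le (J : ℕ) (α c : ℝ) : ‖SF J α c‖ ≤ (3 : ℝ) ^ J := by
  unfold SF
  refine (norm_sum_le _ _).trans ?_
  rw [sum_congr rfl (fun x _ => norm_e _), sum_const, card_range, nsmul_eq_mul, mul_one]
  push_cast
  exact le_refl _

lemma MF_le (J : ℕ) (α c : ℝ) : ‖MF J α c‖ ≤ (3 : ℝ) ^ J := by
  unfold MF
  have h := intervalIntegral.norm_integral_le_of_norm_le_const (a := (0 : ℝ)) (b := ((3 ^ J : ℕ) : ℝ)) (C := 1)
    (f := fun u => e (α * u ^ qe c)) (fun u _ => (norm_e _).le)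
  refine h.trans (le_of_eq ?_)
  push_cast
  rw [one_mul, sub_zero, abs_of_nonneg (by positivity)]

lemma uc_cont (α c : ℝ) : Continuous fun u : ℝ => e (α * u ^ qe c) :=
  e_cont.comp (continuous_const.mul (pw_cont continuous_id continuous_const))

lemma SF_succ (J : ℕ) (α c : ℝ) : SF (J + 1) α c = SF J α c + S (3 ^ J) α c := by
  unfold SF S
  rw [range_eq_Ico, range_eq_Ico, ← sum_Ico_consecutive _ (Nat.zero_le (3 ^ J)) (by rw [pow_succ]; omega : 3 ^ J ≤ 3 ^ (J + 1))]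
  congr 2
  rw [pow_succ, mul_comm]

lemma MF_succ (J : ℕ) (α c : ℝ) : MF (J + 1) α c = MF J α c + M (3 ^ J) α c := by
  unfold MF M
  rw [intervalIntegral.integral_add_adjacent_intervals ((uc_cont α c).intervalIntegrable _ _) ((uc_cont α c).intervalIntegrable _ _)]
  congr 2
  rw [pow_succ, mul_comm]

lemma DF_nonneg (J : ℕ) (α : ℝ) {a b : ℝ} (hab : a ≤ b) : 0 ≤ DF J α a b :=
  intervalIntegral.integral_nonneg hab fun _ _ => norm_nonneg _

lemma DF_le_sum (J : ℕ) (α : ℝ) {a b : ℝ} (hab : a ≤ b) (hb : b ≤ a + 1) :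
    DF J α a b ≤ 2 + ∑ i ∈ range J, DB (3 ^ i) α a b := by
  induction J with
  | zero =>
    rw [range_zero, sum_empty, add_zero]
    have h : DF 0 α a b ≤ ∫ c in a..b, (2 : ℝ) := by
      unfold DF
      apply intervalIntegral.integral_mono_on hab
      · exact ((SF_cont2 0 α).sub (MF_cont2 0 α)).norm.intervalIntegrable _ _
      · exact intervalIntegrable_const
      · intro c _
        have h1 := SF_le 0 α c
        have h2 := MF_le 0 α c
        rw [pow_zero] at h1 h2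
        have := norm_sub_le (SF 0 α c) (MF 0 α c)
        linarith
    rw [intervalIntegral.integral_const, smul_eq_mul] at h
    nlinarith
  | succ J ih =>
    rw [sum_range_succ]
    have h : DF (J + 1) α a b ≤ DF J α a b + DB (3 ^ J) α a b := by
      unfold DF DB
      have hc1 : Continuous fun c : ℝ => ‖SF J α c - MF J α c‖ := ((SF_cont2 J α).sub (MF_cont2 J α)).norm
      have hc2 : Continuous fun c : ℝ => ‖S (3 ^ J) α c - M (3 ^ J) α c‖ := ((S_cont2 _ α).sub (M_cont2 _ α)).norm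
      rw [← intervalIntegral.integral_add (hc1.intervalIntegrable _ _) (hc2.intervalIntegrable _ _)]
      apply intervalIntegral.integral_mono_on hab
      · exact ((SF_cont2 (J + 1) α).sub (MF_cont2 (J + 1) α)).norm.intervalIntegrable _ _
      · exact (hc1.add hc2).intervalIntegrable _ _
      · intro c _
        rw [SF_succ, MF_succ]
        have : SF J α c + S (3 ^ J) α c - (MF J α c + M (3 ^ J) α c) =
          (SF J α c - MF J α c) + (S (3 ^ J) α c - M (3 ^ J) α c) := by ring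
        rw [this]
        exact norm_add_le _ _
    linarith

/-- the logarithmic factor -/
noncomputable def LB (b : ℝ) (J : ℕ) : ℝ := 2 + J * (KB b * (2 * J + 2))

lemma LB_ge (b : ℝ) (J : ℕ) : 2 ≤ LB b J := by
  unfold LB
  have := KB_ge b
  have : 0 ≤ (J : ℝ) * (KB b * (2 * J + 2)) := by positivity
  linarith

lemma DF_zero (J : ℕ) {a b : ℝ} (ha : 2 ≤ a) (hab : a ≤ b) (hb : b ≤ a + 1) : DF J 0 a b ≤ 2 := by
  refine (DF_le_sum _ _ hab hb).trans ?_
  have h1 : ∑ i ∈ range J, DB (3 ^ i) 0 a b ≤ ∑ _i ∈ range J, (0 : ℝ) := by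
    apply sum_le_sum
    intro i _
    refine (DB_triv (Nat.one_le_pow _ _ (by norm_num)) 0 ha hab hb).trans (le_of_eq ?_)
    rw [abs_zero, zero_mul, mul_zero]
  rw [sum_const_zero] at h1
  linarith

lemma DF_all (J : ℕ) (α : ℝ) {a b : ℝ} (ha : 2 ≤ a) (hab : a ≤ b) (hb : b ≤ a + 1 / 4) :
    DF J α a b ≤ LB b J * ((3 : ℝ) ^ J) ^ (3 / 4 : ℝ) := by
  have hN : (1 : ℝ) ≤ (3 : ℝ) ^ J := one_le_pow₀ (by norm_num)
  have hN1 : 1 ≤ ((3 : ℝ) ^ J) ^ (3 / 4 : ℝ) := Real.one_le_rpow hN (by norm_num)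
  have hL := LB_ge b J
  rcases eq_or_ne α 0 with h | hα
  · rw [h]
    have := DF_zero J ha hab (by linarith)
    nlinarith
  refine (DF_le_sum _ _ hab (by linarith)).trans ?_
  have h1 : ∑ i ∈ range J, DB (3 ^ i) α a b ≤ ∑ _i ∈ range J, KB b * (2 * J + 2) * ((3 : ℝ) ^ J) ^ (3 / 4 : ℝ) := by
    apply sum_le_sum
    intro i hi
    rw [mem_range] at hi
    refine DB_all (Nat.one_le_pow _ _ (by norm_num)) ha hab hb hα ?_ (log_block hi)
    push_cast
    exact pow_le_pow_right₀ (by norm_num) hi.le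
  rw [sum_const, card_range, nsmul_eq_mul] at h1
  unfold LB
  have e : (2 + (J : ℝ) * (KB b * (2 * J + 2))) * ((3 : ℝ) ^ J) ^ (3 / 4 : ℝ) = 2 * ((3 : ℝ) ^ J) ^ (3 / 4 : ℝ) +
    J * (KB b * (2 * J + 2) * ((3 : ℝ) ^ J) ^ (3 / 4 : ℝ)) := by ring
  rw [e]
  linarith

lemma DF_sharp (J : ℕ) {α a b Y : ℝ} (ha : 2 ≤ a) (hab : a ≤ b) (hb : b ≤ a + 1) (hα : α ≠ 0)
    (hY : 1 ≤ Y) (hJY : (3 : ℝ) ^ J ≤ 3 * Y ^ 2) (hαY : 1 ≤ |α| * Y ^ a) :
    DF J α a b ≤ LB b J * Y := by
  refine (DF_le_sum _ _ hab hb).trans ?_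
  have h1 : ∑ i ∈ range J, DB (3 ^ i) α a b ≤ ∑ _i ∈ range J, KB b * (2 * J + 2) * Y := by
    apply sum_le_sum
    intro i hi
    rw [mem_range] at hi
    refine DB_sharp (Nat.one_le_pow _ _ (by norm_num)) ha hab hb hα hY ?_ hαY (log_block hi)
    push_cast
    exact (pow_le_pow_right₀ (by norm_num) hi.le).trans hJY
  rw [sum_const, card_range, nsmul_eq_mul] at h1
  unfold LB
  have e : (2 + (J : ℝ) * (KB b * (2 * J + 2))) * Y = 2 * Y + J * (KB b * (2 * J + 2) * Y) := by ring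
  rw [e]
  linarith

/-- the decay of the integral -/
lemma MF_sharp (J : ℕ) {α a c Y : ℝ} (ha : 2 ≤ a) (hac : a ≤ c) (hα : α ≠ 0) (hY : 1 ≤ Y) (hαY : 1 ≤ |α| * Y ^ a) :
    ‖MF J α c‖ ≤ 2 * Y := by
  have hY0 : 0 < Y := by linarith
  have hα0 : 0 < |α| := abs_pos.2 hα
  rcases le_or_gt ((3 : ℝ) ^ J) Y with h | h
  · have := MF_le J α c
    linarith
  · unfold MF
    push_cast
    rw [← intervalIntegral.integral_add_adjacent_intervals (b := Y) ((uc_cont α c).intervalIntegrable _ _)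
      ((uc_cont α c).intervalIntegrable _ _)]
    have h1 : ‖∫ v in (0 : ℝ)..Y, e (α * v ^ qe c)‖ ≤ 1 * |Y - 0| :=
      intervalIntegral.norm_integral_le_of_norm_le_const fun v _ => (norm_e _).le
    rw [one_mul, sub_zero, abs_of_pos hY0] at h1
    have h2 : ‖∫ v in Y..(3 : ℝ) ^ J, e (α * v ^ qe c)‖ ≤ Y := by
      rw [qe_eq (by linarith)]
      refine (tail_le (by linarith) hY0 h.le hα).trans ?_
      have h3 : Y ^ (a - 1) ≤ Y ^ (c - 1) := Real.rpow_le_rpow_of_exponent_le hY (by linarith)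
      have h4 : 0 < Y ^ (a - 1) := Real.rpow_pos_of_pos hY0 _
      have h5 : Y ^ a = Y ^ (a - 1) * Y := by rw [← Real.rpow_add_one hY0.ne']; congr 1; ring
      rw [div_le_iff₀ (by positivity)]
      rw [h5] at hαY
      calc 1 ≤ |α| * (Y ^ (a - 1) * Y) := hαY
        _ ≤ |α| * (Y ^ (c - 1) * Y) := by gcongr
        _ = _ := by ring
    have := norm_add_le (∫ v in (0 : ℝ)..Y, e (α * v ^ qe c)) (∫ v in Y..(3 : ℝ) ^ J, e (α * v ^ qe c))
    linarith

/-- the mean size of the integral -/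
noncomputable def NF (J : ℕ) (α a b : ℝ) : ℝ := ∫ c in a..b, ‖MF J α c‖

lemma NF_nonneg (J : ℕ) (α : ℝ) {a b : ℝ} (hab : a ≤ b) : 0 ≤ NF J α a b :=
  intervalIntegral.integral_nonneg hab fun _ _ => norm_nonneg _

lemma NF_le (J : ℕ) (α : ℝ) {a b : ℝ} (hab : a ≤ b) (hb : b ≤ a + 1) : NF J α a b ≤ (3 : ℝ) ^ J := by
  have h : NF J α a b ≤ ∫ c in a..b, (3 : ℝ) ^ J := by
    unfold NF
    apply intervalIntegral.integral_mono_on hab
    · exact (MF_cont2 J α).norm.intervalIntegrable _ _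
    · exact intervalIntegrable_const
    · intro c _
      exact MF_le J α c
  rw [intervalIntegral.integral_const, smul_eq_mul] at h
  have : (0 : ℝ) < (3 : ℝ) ^ J := by positivity
  nlinarith

lemma NF_sharp (J : ℕ) {α a b Y : ℝ} (ha : 2 ≤ a) (hab : a ≤ b) (hb : b ≤ a + 1) (hα : α ≠ 0)
    (hY : 1 ≤ Y) (hαY : 1 ≤ |α| * Y ^ a) : NF J α a b ≤ 2 * Y := by
  have h : NF J α a b ≤ ∫ c in a..b, 2 * Y := by
    unfold NF
    apply intervalIntegral.integral_mono_on hab
    · exact (MF_cont2 J α).norm.intervalIntegrable _ _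
    · exact intervalIntegrable_const
    · intro c hc
      exact MF_sharp J ha hc.1 hα hY hαY
  rw [intervalIntegral.integral_const, smul_eq_mul] at h
  nlinarith

end Pool.Agent.K7.H89.WE
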