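import Mathlib
import Pool.Agent.K7.H89.WE.B

set_option autoImplicit false

/-! Waring's problem with almost all exponents: the expected error. -/

namespace Pool.Agent.K7.H89.WE
open Finset MeasureTheory Complex
open Pool.Agent.K7.H74.WS (e norm_e e_cont e_add e_neg e_sub e_zero W W_nonneg W_le W_int W_cont W_one)

/-- Lebesgue measure on a box of exponents -/
noncomputable def mu {s : ℕ} (a b : Fin s → ℝ) : Measure (Fin s → ℝ) :=
  Measure.pi fun i => volume.restrict (Set.Ioc (a i) (b i))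

instance muF {s : ℕ} (a b : Fin s → ℝ) : IsFiniteMeasure (mu a b) := by unfold mu; infer_instance

theorem prod_dev {s : ℕ} {a b : Fin s → ℝ} (hab : ∀ i, a i ≤ b i) {f g : Fin s → ℝ → ℂ} (hf : ∀ i, Continuous (f i))
    (hg : ∀ i, Continuous (g i)) {B : ℝ} (hB : ∀ i c, ‖f i c‖ ≤ B) (hB' : ∀ i c, ‖g i c‖ ≤ B) :
    ∫ c, ‖∏ i, f i (c i) - ∏ i, g i (c i)‖ ∂(mu a b) ≤ ∑ t ∈ (univ : Finset (Fin s)).powerset.erase ∅,
      ∏ i, (if i ∈ t then ∫ c in a i..b i, ‖f i c - g i c‖ else ∫ c in a i..b i, ‖g i c‖) := by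
  classical
  set G : Finset (Fin s) → (Fin s → ℝ) → ℝ := fun t c => ∏ i, if i ∈ t then ‖f i (c i) - g i (c i)‖ else ‖g i (c i)‖ with hG
  have hGc : ∀ t, Continuous (G t) := by
    intro t
    rw [hG]
    refine continuous_finsetProd _ fun i _ => ?_
    by_cases h : i ∈ t
    · simp only [h, if_true]
      exact (((hf i).comp (continuous_apply i)).sub ((hg i).comp (continuous_apply i))).norm
    · simp only [h, if_false]
      exact ((hg i).comp (continuous_apply i)).norm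
  have hGb : ∀ t c, ‖G t c‖ ≤ (∏ _i : Fin s, (B + B)) := by
    intro t c
    rw [hG]
    simp only
    rw [norm_prod]
    apply prod_le_prod (fun i _ => norm_nonneg _)
    intro i _
    have h0 : 0 ≤ B := (norm_nonneg _).trans (hB i 0)
    by_cases h : i ∈ t
    · simp only [h, if_true, norm_norm]
      exact (norm_sub_le _ _).trans (add_le_add (hB _ _) (hB' _ _))
    · simp only [h, if_false, norm_norm]
      linarith [hB' i (c i)]
  have hGi : ∀ t, Integrable (G t) (mu a b) := fun t =>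
    Integrable.of_bound (hGc t).aestronglyMeasurable _ (Filter.Eventually.of_forall (hGb t))
  have hGint : ∀ t, ∫ c, G t c ∂(mu a b) =
      ∏ i, (if i ∈ t then ∫ c in a i..b i, ‖f i c - g i c‖ else ∫ c in a i..b i, ‖g i c‖) := by
    intro t
    rw [hG, mu]
    have h1 := integral_fintype_prod_eq_prod (𝕜 := ℝ) (fun (i : Fin s) (x : ℝ) => if i ∈ t then ‖f i x - g i x‖ else ‖g i x‖)
      (μ := fun i => volume.restrict (Set.Ioc (a i) (b i)))
    refine h1.trans ?_
    apply prod_congr rfl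
    intro i _
    by_cases h : i ∈ t
    · simp only [h, if_true]
      rw [intervalIntegral.integral_of_le (hab i)]
    · simp only [h, if_false]
      rw [intervalIntegral.integral_of_le (hab i)]
  have hpt : ∀ c : Fin s → ℝ, ‖∏ i, f i (c i) - ∏ i, g i (c i)‖ ≤ ∑ t ∈ (univ : Finset (Fin s)).powerset.erase ∅, G t c := by
    intro c
    have h1 : ∏ i, f i (c i) = ∑ t ∈ (univ : Finset (Fin s)).powerset, (∏ i ∈ t, (f i (c i) - g i (c i))) * ∏ i ∈ univ \ t, g i (c i) := by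
      rw [← prod_add]
      apply prod_congr rfl
      intro i _
      ring
    have h2 : (∅ : Finset (Fin s)) ∈ (univ : Finset (Fin s)).powerset := by simp
    rw [h1, ← add_sum_erase _ _ h2]
    have h3 : (∏ i ∈ (∅ : Finset (Fin s)), (f i (c i) - g i (c i))) * ∏ i ∈ univ \ (∅ : Finset (Fin s)), g i (c i) = ∏ i, g i (c i) := by
      simp
    rw [h3, add_sub_cancel_left]
    refine (norm_sum_le _ _).trans (sum_le_sum fun t _ => ?_)
    rw [hG]
    simp only
    rw [prod_ite, norm_mul, norm_prod, norm_prod]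
    have e1 : (univ.filter fun i => i ∈ t) = t := by ext i; simp
    have e2 : (univ.filter fun i => i ∉ t) = univ \ t := by ext i; simp
    rw [e1, e2]
  have hint : Integrable (fun c : Fin s → ℝ => ‖∏ i, f i (c i) - ∏ i, g i (c i)‖) (mu a b) := by
    refine (integrable_finsetSum _ fun t _ => hGi t : Integrable (fun c => ∑ t ∈ (univ : Finset (Fin s)).powerset.erase ∅, G t c) (mu a b)).mono' ?_ ?_
    · apply Continuous.aestronglyMeasurable
      exact ((continuous_finsetProd _ fun i _ => (hf i).comp (continuous_apply i)).sub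
        (continuous_finsetProd _ fun i _ => (hg i).comp (continuous_apply i))).norm
    · refine Filter.Eventually.of_forall fun c => ?_
      rw [norm_norm]
      exact hpt c
  have h4 : ∫ c, ‖∏ i, f i (c i) - ∏ i, g i (c i)‖ ∂(mu a b) ≤ ∫ c, ∑ t ∈ (univ : Finset (Fin s)).powerset.erase ∅, G t c ∂(mu a b) :=
    integral_mono hint (integrable_finsetSum _ fun t _ => hGi t) hpt
  refine h4.trans (le_of_eq ?_)
  rw [integral_finsetSum _ fun t _ => hGi t]
  exact sum_congr rfl (fun t _ => hGint t)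

/-- the length of the `i`-th sum, as an exponent of three -/
noncomputable def ji (a : ℝ) (J : ℕ) : ℕ := ⌈(J : ℝ) / a⌉₊

lemma ji_le {a : ℝ} (ha : 1 ≤ a) (J : ℕ) : ji a J ≤ J := by
  unfold ji
  apply Nat.ceil_le.2
  exact div_le_self (Nat.cast_nonneg _) ha

lemma ji_lower {a : ℝ} (J : ℕ) : ((3 : ℝ) ^ J) ^ (1 / a) ≤ (3 : ℝ) ^ (ji a J) := by
  rw [← Real.rpow_natCast 3 J, ← Real.rpow_mul (by norm_num), ← Real.rpow_natCast 3 (ji a J)]
  apply Real.rpow_le_rpow_of_exponent_le (by norm_num)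
  unfold ji
  refine le_trans (le_of_eq ?_) (Nat.le_ceil _)
  ring

lemma ji_upper {a : ℝ} (ha : 0 < a) (J : ℕ) : (3 : ℝ) ^ (ji a J) ≤ 3 * ((3 : ℝ) ^ J) ^ (1 / a) := by
  have h1 : (3 : ℝ) * ((3 : ℝ) ^ J) ^ (1 / a) = (3 : ℝ) ^ ((J : ℝ) / a + 1) := by
    rw [← Real.rpow_natCast 3 J, ← Real.rpow_mul (by norm_num), Real.rpow_add (by norm_num), Real.rpow_one, mul_comm]
    congr 2
    ring
  rw [h1, ← Real.rpow_natCast 3 (ji a J)]
  apply Real.rpow_le_rpow_of_exponent_le (by norm_num)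
  unfold ji
  exact (Nat.ceil_lt_add_one (by positivity)).le

/-- the deviation of the product -/
noncomputable def dl {s : ℕ} (a : Fin s → ℝ) (J : ℕ) (α : ℝ) (c : Fin s → ℝ) : ℝ :=
  ‖∏ i, SF (ji (a i) J) α (c i) - ∏ i, MF (ji (a i) J) α (c i)‖

lemma dl_nonneg {s : ℕ} (a : Fin s → ℝ) (J : ℕ) (α : ℝ) (c : Fin s → ℝ) : 0 ≤ dl a J α c := norm_nonneg _

lemma dl_cont {s : ℕ} (a : Fin s → ℝ) (J : ℕ) {T : Type} [TopologicalSpace T] {f : T → ℝ} {g : T → Fin s → ℝ}
    (hf : Continuous f) (hg : Continuous g) : Continuous fun t => dl a J (f t) (g t) := by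
  unfold dl
  refine ((continuous_finsetProd _ fun i _ => ?_).sub (continuous_finsetProd _ fun i _ => ?_)).norm
  · exact (SF_cont _).comp (hf.prodMk ((continuous_apply i).comp hg))
  · exact (MF_cont _).comp (hf.prodMk ((continuous_apply i).comp hg))

/-- the product of the lengths -/
noncomputable def PL {s : ℕ} (a : Fin s → ℝ) (J : ℕ) : ℝ := ∏ i, (3 : ℝ) ^ (ji (a i) J)

lemma PL_pos {s : ℕ} (a : Fin s → ℝ) (J : ℕ) : 0 < PL a J := prod_pos fun i _ => by positivity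

lemma SFp_le {s : ℕ} (a : Fin s → ℝ) (J : ℕ) (α : ℝ) (c : Fin s → ℝ) : ‖∏ i, SF (ji (a i) J) α (c i)‖ ≤ PL a J := by
  rw [norm_prod]
  exact prod_le_prod (fun i _ => norm_nonneg _) fun i _ => SF_le _ _ _

lemma MFp_le {s : ℕ} (a : Fin s → ℝ) (J : ℕ) (α : ℝ) (c : Fin s → ℝ) : ‖∏ i, MF (ji (a i) J) α (c i)‖ ≤ PL a J := by
  rw [norm_prod]
  exact prod_le_prod (fun i _ => norm_nonneg _) fun i _ => MF_le _ _ _

lemma dl_le {s : ℕ} (a : Fin s → ℝ) (J : ℕ) (α : ℝ) (c : Fin s → ℝ) : dl a J α c ≤ 2 * PL a J := by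
  unfold dl
  refine (norm_sub_le _ _).trans ?_
  have := SFp_le a J α c
  have := MFp_le a J α c
  linarith

/-- the sum of the reciprocals of the exponents -/
noncomputable def sg {s : ℕ} (a : Fin s → ℝ) : ℝ := ∑ i, 1 / a i

/-- the conditions on the box of exponents -/
structure Box {s : ℕ} (a b : Fin s → ℝ) (B ρ : ℝ) : Prop where
  ha : ∀ i, 2 ≤ a i
  hab : ∀ i, a i ≤ b i
  hb : ∀ i, b i ≤ a i + 1 / 4
  hB : ∀ i, b i ≤ B
  hρ0 : 0 < ρ
  hρ : ∀ i, ρ ≤ 1 / (4 * a i)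

lemma LB_mono {b B : ℝ} (h : b ≤ B) {j J : ℕ} (hj : j ≤ J) : LB b j ≤ LB B J := by
  unfold LB
  have h1 : KB b ≤ KB B := by
    unfold KB
    have h2 : (3 : ℝ) ^ b ≤ (3 : ℝ) ^ B := Real.rpow_le_rpow_of_exponent_le (by norm_num) h
    have := Real.pi_pos
    nlinarith
  have h2 : (j : ℝ) ≤ J := by exact_mod_cast hj
  have h3 := KB_ge b
  have h4 : (0 : ℝ) ≤ j := Nat.cast_nonneg _
  have h5 : 0 ≤ KB B := by linarith [KB_ge B]
  have h6 : 0 ≤ KB b := by linarith
  have h7 : KB b * (2 * (j : ℝ) + 2) ≤ KB B * (2 * J + 2) :=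
    mul_le_mul h1 (by linarith) (by linarith) h5
  have h8 : (j : ℝ) * (KB b * (2 * j + 2)) ≤ J * (KB B * (2 * J + 2)) :=
    mul_le_mul h2 h7 (mul_nonneg h6 (by linarith)) (Nat.cast_nonneg _)
  linarith

lemma card_ps (s : ℕ) : (((univ : Finset (Fin s)).powerset.erase ∅).card : ℝ) ≤ 2 ^ s := by
  have h1 : ((univ : Finset (Fin s)).powerset.erase ∅).card ≤ (univ : Finset (Fin s)).powerset.card := card_le_card (erase_subset _ _)
  rw [card_powerset, card_univ, Fintype.card_fin] at h1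
  exact_mod_cast h1

lemma PL_le {s : ℕ} {a b : Fin s → ℝ} {B ρ : ℝ} (H : Box a b B ρ) (J : ℕ) : PL a J ≤ 3 ^ s * ((3 : ℝ) ^ J) ^ sg a := by
  have hT : (0 : ℝ) < (3 : ℝ) ^ J := by positivity
  unfold PL sg
  have h1 : ∏ i, (3 : ℝ) ^ (ji (a i) J) ≤ ∏ i : Fin s, (3 * ((3 : ℝ) ^ J) ^ (1 / a i)) :=
    prod_le_prod (fun i _ => by positivity) fun i _ => ji_upper (by linarith [H.ha i]) J
  refine h1.trans (le_of_eq ?_)
  rw [prod_mul_distrib, prod_const, card_univ, Fintype.card_fin, Real.rpow_sum_of_pos hT]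

/-- the first bound for the expected deviation -/
theorem dl_mean1 {s : ℕ} {a b : Fin s → ℝ} {B ρ : ℝ} (H : Box a b B ρ) (J : ℕ) (α : ℝ) :
    ∫ c, dl a J α c ∂(mu a b) ≤ (6 * LB B J) ^ s * (((3 : ℝ) ^ J) ^ (sg a - ρ)) := by
  classical
  set T : ℝ := (3 : ℝ) ^ J with hTd
  have hT1 : 1 ≤ T := one_le_pow₀ (by norm_num)
  have hT0 : 0 < T := by linarith
  have hL := LB_ge B J
  set L := LB B J with hLd
  have hBd : ∀ (i : Fin s) (c : ℝ), ‖SF (ji (a i) J) α c‖ ≤ T := fun i c => (SF_le _ _ _).trans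
    (pow_le_pow_right₀ (by norm_num) (ji_le (by linarith [H.ha i]) J))
  have hBd' : ∀ (i : Fin s) (c : ℝ), ‖MF (ji (a i) J) α c‖ ≤ T := fun i c => (MF_le _ _ _).trans
    (pow_le_pow_right₀ (by norm_num) (ji_le (by linarith [H.ha i]) J))
  have h1 := prod_dev H.hab (fun i => SF_cont2 (ji (a i) J) α) (fun i => MF_cont2 (ji (a i) J) α) hBd hBd'
  have hρ1 : T ^ (-ρ) ≤ 1 := Real.rpow_le_one_of_one_le_of_nonpos hT1 (by linarith [H.hρ0])
  have hρ2 : 0 < T ^ (-ρ) := Real.rpow_pos_of_pos hT0 _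
  have h2 : ∀ t ∈ (univ : Finset (Fin s)).powerset.erase ∅,
      ∏ i, (if i ∈ t then ∫ c in a i..b i, ‖SF (ji (a i) J) α c - MF (ji (a i) J) α c‖ else ∫ c in a i..b i, ‖MF (ji (a i) J) α c‖) ≤
      L ^ s * PL a J * T ^ (-ρ) := by
    intro t ht
    rw [mem_erase] at ht
    obtain ⟨i0, hi0⟩ := nonempty_iff_ne_empty.2 ht.1
    have e1 : ∏ i, (if i ∈ t then ∫ c in a i..b i, ‖SF (ji (a i) J) α c - MF (ji (a i) J) α c‖ else ∫ c in a i..b i, ‖MF (ji (a i) J) α c‖) ≤
        ∏ i, (L * (3 : ℝ) ^ (ji (a i) J) * (if i = i0 then T ^ (-ρ) else 1)) := by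
      apply prod_le_prod
      · intro i _
        split_ifs
        · exact DF_nonneg _ _ (H.hab i)
        · exact NF_nonneg _ _ (H.hab i)
      · intro i _
        have hN : (1 : ℝ) ≤ (3 : ℝ) ^ (ji (a i) J) := one_le_pow₀ (by norm_num)
        have hLi : LB (b i) (ji (a i) J) ≤ L := LB_mono (H.hB i) (ji_le (by linarith [H.ha i]) J)
        have hD : ∫ c in a i..b i, ‖SF (ji (a i) J) α c - MF (ji (a i) J) α c‖ ≤
            L * (3 : ℝ) ^ (ji (a i) J) * T ^ (-ρ) := by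
          refine (DF_all (ji (a i) J) α (H.ha i) (H.hab i) (H.hb i)).trans ?_
          have e2 : ((3 : ℝ) ^ (ji (a i) J)) ^ (3 / 4 : ℝ) ≤ (3 : ℝ) ^ (ji (a i) J) * T ^ (-ρ) := by
            have e3 : ((3 : ℝ) ^ (ji (a i) J)) ^ (3 / 4 : ℝ) = (3 : ℝ) ^ (ji (a i) J) * ((3 : ℝ) ^ (ji (a i) J)) ^ (-(1 / 4) : ℝ) := by
              rw [← Real.rpow_one_add' (by linarith) (by norm_num)]
              norm_num
            rw [e3]
            apply mul_le_mul_of_nonneg_left _ (by linarith)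
            have hai : 0 < a i := by linarith [H.ha i]
            calc ((3 : ℝ) ^ (ji (a i) J)) ^ (-(1 / 4) : ℝ) ≤ (T ^ (1 / a i)) ^ (-(1 / 4) : ℝ) :=
                  Real.rpow_le_rpow_of_nonpos (Real.rpow_pos_of_pos hT0 _) (ji_lower J) (by norm_num)
              _ = T ^ (-(1 / (4 * a i))) := by
                  rw [← Real.rpow_mul hT0.le]
                  congr 1
                  field_simp
              _ ≤ T ^ (-ρ) := Real.rpow_le_rpow_of_exponent_le hT1 (by linarith [H.hρ i])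
          have e4 : 0 ≤ LB (b i) (ji (a i) J) := by linarith [LB_ge (b i) (ji (a i) J)]
          calc LB (b i) (ji (a i) J) * ((3 : ℝ) ^ (ji (a i) J)) ^ (3 / 4 : ℝ) ≤ L * ((3 : ℝ) ^ (ji (a i) J) * T ^ (-ρ)) := by gcongr
            _ = _ := by ring
        have hN' : ∫ c in a i..b i, ‖MF (ji (a i) J) α c‖ ≤ L * (3 : ℝ) ^ (ji (a i) J) := by
          refine (NF_le (ji (a i) J) α (H.hab i) (by linarith [H.hb i])).trans ?_
          nlinarith
        by_cases hi : i ∈ t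
        · simp only [hi, if_true]
          refine hD.trans ?_
          apply mul_le_mul_of_nonneg_left _ (by positivity)
          split_ifs
          · exact le_refl _
          · exact hρ1
        · simp only [hi, if_false]
          have : i ≠ i0 := fun h => hi (h ▸ hi0)
          rw [if_neg this, mul_one]
          exact hN'
    refine e1.trans (le_of_eq ?_)
    rw [prod_mul_distrib, prod_mul_distrib, prod_const, card_univ, Fintype.card_fin, prod_ite_eq' univ i0 (fun _ => T ^ (-ρ))]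
    simp [PL]
  have h3 := h1.trans (sum_le_card_nsmul _ _ _ h2)
  rw [nsmul_eq_mul] at h3
  have h4 := card_ps s
  have h5 := PL_le H J
  have hPL := PL_pos a J
  unfold dl
  refine h3.trans ?_
  have e5 : T ^ (sg a - ρ) = T ^ sg a * T ^ (-ρ) := by rw [← Real.rpow_add hT0]; rfl
  rw [e5]
  calc (((univ : Finset (Fin s)).powerset.erase ∅).card : ℝ) * (L ^ s * PL a J * T ^ (-ρ)) ≤
      2 ^ s * (L ^ s * (3 ^ s * T ^ sg a) * T ^ (-ρ)) := by gcongr
    _ = _ := by
        rw [mul_pow, show (6 : ℝ) = 2 * 3 by norm_num, mul_pow]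
        ring

/-- the second bound for the expected deviation -/
theorem dl_mean2 {s : ℕ} {a b : Fin s → ℝ} {B ρ : ℝ} (H : Box a b B ρ) (J : ℕ) {α : ℝ} (hα : α ≠ 0) {z : ℝ} (hz : 1 ≤ z)
    (hz1 : (3 : ℝ) ^ J ≤ z ^ 2) (hz2 : 1 ≤ |α| * z) :
    ∫ c, dl a J α c ∂(mu a b) ≤ (6 * LB B J) ^ s * z ^ sg a := by
  classical
  set T : ℝ := (3 : ℝ) ^ J with hTd
  have hT1 : 1 ≤ T := one_le_pow₀ (by norm_num)
  have hT0 : 0 < T := by linarith
  have hz0 : 0 < z := by linarith
  have hL := LB_ge B J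
  set L := LB B J with hLd
  have hBd : ∀ (i : Fin s) (c : ℝ), ‖SF (ji (a i) J) α c‖ ≤ T := fun i c => (SF_le _ _ _).trans
    (pow_le_pow_right₀ (by norm_num) (ji_le (by linarith [H.ha i]) J))
  have hBd' : ∀ (i : Fin s) (c : ℝ), ‖MF (ji (a i) J) α c‖ ≤ T := fun i c => (MF_le _ _ _).trans
    (pow_le_pow_right₀ (by norm_num) (ji_le (by linarith [H.ha i]) J))
  have h1 := prod_dev H.hab (fun i => SF_cont2 (ji (a i) J) α) (fun i => MF_cont2 (ji (a i) J) α) hBd hBd'
  have h2 : ∀ t ∈ (univ : Finset (Fin s)).powerset.erase ∅,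
      ∏ i, (if i ∈ t then ∫ c in a i..b i, ‖SF (ji (a i) J) α c - MF (ji (a i) J) α c‖ else ∫ c in a i..b i, ‖MF (ji (a i) J) α c‖) ≤
      L ^ s * z ^ sg a := by
    intro t _
    have e1 : ∏ i, (if i ∈ t then ∫ c in a i..b i, ‖SF (ji (a i) J) α c - MF (ji (a i) J) α c‖ else ∫ c in a i..b i, ‖MF (ji (a i) J) α c‖) ≤
        ∏ i, (L * z ^ (1 / a i)) := by
      apply prod_le_prod
      · intro i _
        split_ifs
        · exact DF_nonneg _ _ (H.hab i)
        · exact NF_nonneg _ _ (H.hab i)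
      · intro i _
        have hai : 0 < a i := by linarith [H.ha i]
        have hY1 : 1 ≤ z ^ (1 / a i) := Real.one_le_rpow hz (by positivity)
        have hLi : LB (b i) (ji (a i) J) ≤ L := LB_mono (H.hB i) (ji_le (by linarith [H.ha i]) J)
        have hYa : (z ^ (1 / a i)) ^ (a i) = z := by
          rw [← Real.rpow_mul hz0.le, one_div_mul_cancel hai.ne', Real.rpow_one]
        have hαY : 1 ≤ |α| * (z ^ (1 / a i)) ^ (a i) := by rw [hYa]; exact hz2
        have hJY : (3 : ℝ) ^ (ji (a i) J) ≤ 3 * (z ^ (1 / a i)) ^ 2 := by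
          refine (ji_upper hai J).trans ?_
          apply mul_le_mul_of_nonneg_left _ (by norm_num)
          calc T ^ (1 / a i) ≤ (z ^ 2) ^ (1 / a i) := Real.rpow_le_rpow hT0.le hz1 (by positivity)
            _ = (z ^ (1 / a i)) ^ 2 := by
                rw [← Real.rpow_natCast, ← Real.rpow_natCast, ← Real.rpow_mul hz0.le, ← Real.rpow_mul hz0.le, mul_comm]
        split_ifs
        · refine (DF_sharp (ji (a i) J) (H.ha i) (H.hab i) (by linarith [H.hb i]) hα hY1 hJY hαY).trans ?_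
          exact mul_le_mul_of_nonneg_right hLi (by linarith)
        · refine (NF_sharp (ji (a i) J) (H.ha i) (H.hab i) (by linarith [H.hb i]) hα hY1 hαY).trans ?_
          exact mul_le_mul_of_nonneg_right hL (by linarith)
    refine e1.trans (le_of_eq ?_)
    rw [prod_mul_distrib, prod_const, card_univ, Fintype.card_fin, sg, Real.rpow_sum_of_pos hz0]
  have h3 := h1.trans (sum_le_card_nsmul _ _ _ h2)
  rw [nsmul_eq_mul] at h3
  have h4 := card_ps s
  unfold dl
  refine h3.trans ?_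
  have hzs : 0 < z ^ sg a := Real.rpow_pos_of_pos hz0 _
  calc (((univ : Finset (Fin s)).powerset.erase ∅).card : ℝ) * (L ^ s * z ^ sg a) ≤
      2 ^ s * (L ^ s * z ^ sg a) := by gcongr
    _ = (2 * L) ^ s * z ^ sg a := by rw [mul_pow]; ring
    _ ≤ (6 * L) ^ s * z ^ sg a := by
        apply mul_le_mul_of_nonneg_right _ hzs.le
        apply pow_le_pow_left₀ (by linarith)
        linarith

/-- the combined bound -/
theorem dl_mean {s : ℕ} {a b : Fin s → ℝ} {B ρ : ℝ} (H : Box a b B ρ) (hs : 2 ≤ sg a) (J : ℕ) (α : ℝ) {Q : ℝ} (hQ : 0 < Q) :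
    ∫ c, dl a J α c ∂(mu a b) ≤ (6 * LB B J) ^ s * (((3 : ℝ) ^ J) ^ (sg a / 2) +
      2 * (((3 : ℝ) ^ J) ^ (sg a - ρ) + Q ^ sg a) * (1 + (α * Q) ^ 2)⁻¹) := by
  set T : ℝ := (3 : ℝ) ^ J with hTd
  have hT1 : 1 ≤ T := one_le_pow₀ (by norm_num)
  have hT0 : 0 < T := by linarith
  have hL := LB_ge B J
  set L := LB B J with hLd
  have hL6 : 0 < (6 * L) ^ s := by positivity
  have hpos : 0 < 1 + (α * Q) ^ 2 := by positivity
  have p1 : 0 < T ^ (sg a / 2) := Real.rpow_pos_of_pos hT0 _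
  have p2 : 0 < T ^ (sg a - ρ) := Real.rpow_pos_of_pos hT0 _
  have p3 : 0 < Q ^ sg a := Real.rpow_pos_of_pos hQ _
  rcases le_or_gt (|α| * Q) 1 with h | h
  · refine (dl_mean1 H J α).trans ?_
    apply mul_le_mul_of_nonneg_left _ hL6.le
    have h1 : (α * Q) ^ 2 ≤ 1 := by
      rw [← sq_abs, abs_mul, abs_of_pos hQ]
      have : 0 ≤ |α| * Q := by positivity
      nlinarith
    have h2 : 1 / 2 ≤ (1 + (α * Q) ^ 2)⁻¹ := by
      rw [← one_div]
      apply one_div_le_one_div_of_le hpos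
      linarith
    nlinarith
  · have hα : α ≠ 0 := by
      rintro rfl
      simp at h
      linarith
    have hα0 : 0 < |α| := abs_pos.2 hα
    set z : ℝ := max (Real.sqrt T) (1 / |α|) with hz
    have hst : 1 ≤ Real.sqrt T := Real.one_le_sqrt.2 hT1
    have hz1 : 1 ≤ z := hst.trans (le_max_left _ _)
    have hz2 : T ≤ z ^ 2 := by
      calc T = (Real.sqrt T) ^ 2 := (Real.sq_sqrt hT0.le).symm
        _ ≤ z ^ 2 := pow_le_pow_left₀ (Real.sqrt_nonneg _) (le_max_left _ _) _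
    have hz3 : 1 ≤ |α| * z := by
      calc (1 : ℝ) = |α| * (1 / |α|) := by field_simp
        _ ≤ |α| * z := mul_le_mul_of_nonneg_left (le_max_right _ _) hα0.le
    refine (dl_mean2 H J hα hz1 hz2 hz3).trans ?_
    apply mul_le_mul_of_nonneg_left _ hL6.le
    have hzs : z ^ sg a ≤ T ^ (sg a / 2) + (1 / |α|) ^ sg a := by
      have e1 : (Real.sqrt T) ^ sg a = T ^ (sg a / 2) := by
        rw [Real.sqrt_eq_rpow, ← Real.rpow_mul hT0.le]
        congr 1
        ring
      have e2 : 0 < (1 / |α|) ^ sg a := Real.rpow_pos_of_pos (by positivity) _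
      rw [hz]
      rcases le_total (Real.sqrt T) (1 / |α|) with h1 | h1
      · rw [max_eq_right h1]; linarith
      · rw [max_eq_left h1, e1]; linarith
    refine hzs.trans ?_
    have h2 : (1 / |α|) ^ sg a ≤ 2 * Q ^ sg a * (1 + (α * Q) ^ 2)⁻¹ := by
      have e1 : (1 / |α|) ^ sg a = (1 / |α|) ^ (sg a - 2) * (1 / |α|) ^ 2 := by
        rw [← Real.rpow_natCast (1 / |α|) 2, ← Real.rpow_add (by positivity)]
        congr 1
        push_cast
        ring
      have e2 : (1 / |α|) ^ (sg a - 2) ≤ Q ^ (sg a - 2) := by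
        apply Real.rpow_le_rpow (by positivity) _ (by linarith)
        rw [div_le_iff₀ hα0]
        linarith
      have e3 : Q ^ sg a = Q ^ (sg a - 2) * Q ^ 2 := by
        rw [← Real.rpow_natCast Q 2, ← Real.rpow_add hQ]
        congr 1
        push_cast
        ring
      have hq2 : 0 < Q ^ (sg a - 2) := Real.rpow_pos_of_pos hQ _
      have hb2 : 1 ≤ (α * Q) ^ 2 := by
        rw [← sq_abs, abs_mul, abs_of_pos hQ]
        nlinarith
      rw [e1, ← div_eq_mul_inv, le_div_iff₀ hpos]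
      calc (1 / |α|) ^ (sg a - 2) * (1 / |α|) ^ 2 * (1 + (α * Q) ^ 2) ≤
          Q ^ (sg a - 2) * (1 / |α|) ^ 2 * (2 * (α * Q) ^ 2) := by
            apply mul_le_mul (mul_le_mul_of_nonneg_right e2 (by positivity)) (by linarith) (by positivity) (by positivity)
        _ = 2 * Q ^ sg a := by
            rw [e3, mul_pow, ← sq_abs α]
            field_simp
    have h3 : 0 ≤ 2 * T ^ (sg a - ρ) * (1 + (α * Q) ^ 2)⁻¹ := by positivity
    calc T ^ (sg a / 2) + (1 / |α|) ^ sg a ≤ T ^ (sg a / 2) + 2 * Q ^ sg a * (1 + (α * Q) ^ 2)⁻¹ := by linarith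
      _ ≤ T ^ (sg a / 2) + (2 * Q ^ sg a * (1 + (α * Q) ^ 2)⁻¹ + 2 * T ^ (sg a - ρ) * (1 + (α * Q) ^ 2)⁻¹) := by linarith
      _ = _ := by ring

/-- the total error -/
noncomputable def Err {s : ℕ} (a : Fin s → ℝ) (J : ℕ) (h : ℝ) (c : Fin s → ℝ) : ℝ := ∫ β : ℝ, W β * dl a J (β / h) c

lemma Err_nonneg {s : ℕ} (a : Fin s → ℝ) (J : ℕ) (h : ℝ) (c : Fin s → ℝ) : 0 ≤ Err a J h c :=
  integral_nonneg fun β => mul_nonneg (W_nonneg _) (dl_nonneg _ _ _ _)

lemma Wdl_int2 {s : ℕ} (a b : Fin s → ℝ) (J : ℕ) (h : ℝ) :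
    Integrable (fun p : (Fin s → ℝ) × ℝ => W p.2 * dl a J (p.2 / h) p.1) ((mu a b).prod volume) := by
  have h1 : Integrable (fun p : (Fin s → ℝ) × ℝ => (2 * PL a J) * W p.2) ((mu a b).prod volume) :=
    (integrable_const (2 * PL a J)).mul_prod W_int
  refine h1.mono' (f := fun p : (Fin s → ℝ) × ℝ => W p.2 * dl a J (p.2 / h) p.1) ?_ ?_
  · have hW : Continuous fun p : (Fin s → ℝ) × ℝ => W p.2 := W_cont.comp continuous_snd
    have h4 : Continuous fun p : (Fin s → ℝ) × ℝ => dl a J (p.2 / h) p.1 :=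
      dl_cont a J (continuous_snd.div_const h) continuous_fst
    exact (hW.mul h4).aestronglyMeasurable
  · refine Filter.Eventually.of_forall fun p => ?_
    rw [Real.norm_of_nonneg (mul_nonneg (W_nonneg _) (dl_nonneg _ _ _ _)), mul_comm]
    exact mul_le_mul_of_nonneg_right (dl_le _ _ _ _) (W_nonneg _)

lemma Err_meas {s : ℕ} (a b : Fin s → ℝ) (J : ℕ) (h : ℝ) : Integrable (Err a J h) (mu a b) := (Wdl_int2 a b J h).integral_prod_left

theorem Err_mean {s : ℕ} {a b : Fin s → ℝ} {B ρ : ℝ} (H : Box a b B ρ) (hs : 2 ≤ sg a) (J : ℕ) {Q h : ℝ} (hQ : 0 < Q) (hh : 0 < h) :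
    ∫ c, Err a J h c ∂(mu a b) ≤ (6 * LB B J) ^ s * (((3 : ℝ) ^ J) ^ (sg a / 2) +
      2 * (((3 : ℝ) ^ J) ^ (sg a - ρ) + Q ^ sg a) * (h / Q * Real.pi)) := by
  set T : ℝ := (3 : ℝ) ^ J with hTd
  have hT0 : 0 < T := by positivity
  have hL := LB_ge B J
  set L := LB B J with hLd
  have p1 : 0 < T ^ (sg a / 2) := Real.rpow_pos_of_pos hT0 _
  have p2 : 0 < T ^ (sg a - ρ) := Real.rpow_pos_of_pos hT0 _
  have p3 : 0 < Q ^ sg a := Real.rpow_pos_of_pos hQ _
  have h1 : ∫ c, Err a J h c ∂(mu a b) = ∫ β, W β * ∫ c, dl a J (β / h) c ∂(mu a b) := by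
    unfold Err
    rw [integral_integral_swap (f := fun (c : Fin s → ℝ) (β : ℝ) => W β * dl a J (β / h) c) (Wdl_int2 a b J h)]
    simp_rw [integral_const_mul]
  rw [h1]
  set c0 : ℝ := h / Q with hc
  have hc0 : 0 < c0 := by positivity
  have hi3 : Integrable (fun β : ℝ => (1 + (β / c0) ^ 2)⁻¹) := integrable_inv_one_add_sq.comp_div hc0.ne'
  have hint : Integrable (fun β : ℝ => (6 * L) ^ s * (T ^ (sg a / 2) * W β +
      2 * (T ^ (sg a - ρ) + Q ^ sg a) * (1 + (β / c0) ^ 2)⁻¹)) :=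
    ((W_int.const_mul _).add (hi3.const_mul _)).const_mul _
  refine (integral_mono_of_nonneg (Filter.Eventually.of_forall fun β => ?_) hint
    (Filter.Eventually.of_forall fun β => ?_)).trans (le_of_eq ?_)
  · exact mul_nonneg (W_nonneg _) (integral_nonneg fun _ => dl_nonneg _ _ _ _)
  · simp only
    have h2 := dl_mean H hs J (β / h) hQ
    have h3 : β / h * Q = β / c0 := by rw [hc]; field_simp
    rw [h3] at h2
    have hW0 := W_nonneg β
    have hW1 := W_le β
    have h4 : 0 ≤ 2 * (T ^ (sg a - ρ) + Q ^ sg a) * (1 + (β / c0) ^ 2)⁻¹ := by positivity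
    calc W β * ∫ c, dl a J (β / h) c ∂(mu a b) ≤ W β * ((6 * L) ^ s * (T ^ (sg a / 2) +
          2 * (T ^ (sg a - ρ) + Q ^ sg a) * (1 + (β / c0) ^ 2)⁻¹)) := mul_le_mul_of_nonneg_left h2 hW0
      _ = (6 * L) ^ s * (T ^ (sg a / 2) * W β + W β * (2 * (T ^ (sg a - ρ) + Q ^ sg a) * (1 + (β / c0) ^ 2)⁻¹)) := by ring
      _ ≤ (6 * L) ^ s * (T ^ (sg a / 2) * W β + 1 * (2 * (T ^ (sg a - ρ) + Q ^ sg a) * (1 + (β / c0) ^ 2)⁻¹)) := by
          apply mul_le_mul_of_nonneg_left _ (by positivity)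
          have := mul_le_mul_of_nonneg_right hW1 h4
          linarith
      _ = _ := by ring
  · rw [integral_const_mul, integral_add (W_int.const_mul _) (hi3.const_mul _), integral_const_mul, integral_const_mul, W_one]
    have e3 : ∫ β : ℝ, (1 + (β / c0) ^ 2)⁻¹ = c0 * Real.pi := by
      rw [Measure.integral_comp_div (fun x : ℝ => (1 + x ^ 2)⁻¹) c0, integral_univ_inv_one_add_sq, abs_of_pos hc0, smul_eq_mul]
    rw [e3]
    ring

end Pool.Agent.K7.H89.WE
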