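import Mathlib
import Pool.Agent.K7.H89.WE.D
import Pool.Agent.K7.H74.WS.Fin

set_option autoImplicit false

/-! Waring's problem with almost all exponents: the bounds at one scale. -/

namespace Pool.Agent.K7.H89.WE
open Finset MeasureTheory Filter
open Pool.Agent.K7.H74.WS (bern_lower bern_upper)

/-- the number of solutions -/
noncomputable def cnt {s : ℕ} (c : Fin s → ℝ) (τ η : ℝ) : ℕ :=
  Nat.card {x : Fin s → ℕ // |(∑ i, (x i : ℝ) ^ (c i)) - τ| < η}

open Classical in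
lemma cnt_eq {s : ℕ} {a c : Fin s → ℝ} (ha : ∀ i, 2 ≤ a i) (hac : ∀ i, a i ≤ c i) {J : ℕ} {τ η : ℝ}
    (h : τ + η ≤ (3 : ℝ) ^ J) :
    cnt c τ η = ((box a J).filter fun x => |sp c x - τ| < η).card := by
  have hsp : ∀ x : Fin s → ℕ, sp c x = ∑ i, (x i : ℝ) ^ (c i) := fun x => by
    unfold sp
    exact sum_congr rfl fun i _ => by rw [qe_eq (by linarith [ha i, hac i])]
  unfold cnt
  apply Nat.subtype_card
  intro x
  rw [mem_filter, hsp]
  constructor
  · exact fun h => h.2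
  · intro hx
    refine ⟨?_, hx⟩
    unfold box
    rw [Fintype.mem_piFinset]
    intro i
    rw [mem_range]
    by_contra h1
    push Not at h1
    have h2 : ((3 : ℝ) ^ (ji (a i) J)) ≤ (x i : ℝ) := by exact_mod_cast h1
    have h3 := big (ha i) (hac i) h2
    have h4 : (x i : ℝ) ^ (c i) ≤ ∑ i, (x i : ℝ) ^ (c i) :=
      single_le_sum (f := fun i => (x i : ℝ) ^ (c i)) (fun j _ => Real.rpow_nonneg (Nat.cast_nonneg _) _) (mem_univ i)
    have h5 := (abs_lt.1 hx).2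
    linarith

lemma Vs_nonneg {s : ℕ} (c : Fin s → ℝ) : 0 ≤ Vs c := ENNReal.toReal_nonneg

/-- the lower bound at one scale -/
theorem det_lower {s : ℕ} {a c : Fin s → ℝ} (ha : ∀ i, 2 ≤ a i) (hac : ∀ i, a i ≤ c i) (hρ : 1 ≤ sg c) {J : ℕ}
    {h η τ δ C : ℝ} (hh : 0 < h) (hδ0 : 0 < δ) (hδ : δ ≤ 1 / 4) (hhη : h ≤ δ * η) (hητ : η ≤ δ * τ)
    (hX : 2 * τ ≤ (3 : ℝ) ^ J)
    (hE : Err a J h c ≤ δ * (h * (C * τ ^ (sg c - 1)))) :
    (2 * (Vs c * sg c) * ((1 - δ) ^ (sg c - 1) * (1 - 3 * δ / 2)) - 2 * δ * C) * (η * τ ^ (sg c - 1)) ≤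
      cnt c τ η := by
  classical
  have hη : 0 < η := by
    by_contra h1
    push Not at h1
    nlinarith
  have hτ : 0 < τ := by
    by_contra h1
    push Not at h1
    nlinarith
  set ρ : ℝ := sg c with hρd
  have hV := Vs_nonneg c
  have hητ' : η ≤ τ / 4 := by nlinarith
  have hhη' : h ≤ η / 4 := by nlinarith
  -- the number of windows
  set F : ℕ := ⌊2 * η / h⌋₊ with hF
  have hF1 : (F : ℝ) ≤ 2 * η / h := Nat.floor_le (by positivity)
  have hF2 : 2 * η / h < F + 1 := Nat.lt_floor_add_one _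
  have hF3 : 8 ≤ 2 * η / h := by rw [le_div_iff₀ hh]; linarith
  have hF4 : (7 : ℝ) < F := by linarith
  have hF5 : 7 < F := by exact_mod_cast hF4
  obtain ⟨N, hN⟩ : ∃ N, F = N + 1 := ⟨F - 1, by omega⟩
  have hN1 : 1 ≤ N := by omega
  have hNF : (F : ℝ) = N + 1 := by rw [hN]; push_cast; ring
  rw [hNF] at hF1 hF2
  rw [le_div_iff₀ hh] at hF1
  rw [div_lt_iff₀ hh] at hF2
  have hN0 : (1 : ℝ) ≤ N := by exact_mod_cast hN1
  have ht : 0 < τ - η + h := by linarith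
  have h1 := count_lower ha hac (J := J) hh ht hN1 (by nlinarith)
  -- the count
  have h2 : (((box a J).filter fun x => τ - η + h - h < sp c x ∧ sp c x < τ - η + h + N * h).card : ℝ) ≤ cnt c τ η := by
    rw [cnt_eq ha hac (by linarith : τ + η ≤ (3 : ℝ) ^ J)]
    exact Nat.cast_le.2 (card_le_card (monotone_filter_right _ fun x _ hx => by
      rw [abs_lt]
      constructor
      · linarith [hx.1]
      · have := hx.2
        nlinarith))
  -- the main term
  have h3 := bern_lower (a := τ - η + h) (b := τ - η + h + (N - 1) * h) ht (by nlinarith) hρ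
  have h4 : (τ * (1 - δ)) ^ (ρ - 1) ≤ (τ - η + h) ^ (ρ - 1) := by
    apply Real.rpow_le_rpow (mul_nonneg hτ.le (by linarith)) _ (by linarith)
    nlinarith
  rw [Real.mul_rpow hτ.le (by linarith)] at h4
  have h5 : 2 * η * (1 - 3 * δ / 2) ≤ (N - 1) * h := by nlinarith
  have h6 : 0 ≤ (1 - δ) ^ (ρ - 1) := Real.rpow_nonneg (by linarith) _
  have h7 : 0 < τ ^ (ρ - 1) := Real.rpow_pos_of_pos hτ _
  have h8 : ρ * (τ ^ (ρ - 1) * (1 - δ) ^ (ρ - 1)) * (2 * η * (1 - 3 * δ / 2)) ≤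
      ρ * (τ - η + h) ^ (ρ - 1) * (τ - η + h + (N - 1) * h - (τ - η + h)) := by
    have e1 : τ - η + h + (N - 1) * h - (τ - η + h) = (N - 1) * h := by ring
    rw [e1]
    apply mul_le_mul _ h5 _ _
    · exact mul_le_mul_of_nonneg_left h4 (by linarith)
    · apply mul_nonneg (by linarith) (by linarith)
    · exact mul_nonneg (by linarith) (Real.rpow_nonneg ht.le _)
  have h9 := h8.trans h3
  have h10 := mul_le_mul_of_nonneg_left h9 hV
  -- the error
  have hE0 := Err_nonneg a J h c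
  have hc0 : 0 ≤ C := by
    by_contra h11
    push Not at h11
    have : h * (C * τ ^ (ρ - 1)) < 0 := mul_neg_of_pos_of_neg hh (mul_neg_of_neg_of_pos h11 h7)
    nlinarith
  have h11 : N * Err a J h c ≤ 2 * δ * C * (η * τ ^ (ρ - 1)) := by
    calc N * Err a J h c ≤ N * (δ * (h * (C * τ ^ (ρ - 1)))) := mul_le_mul_of_nonneg_left hE (by linarith)
      _ = (N * h) * (δ * (C * τ ^ (ρ - 1))) := by ring
      _ ≤ (2 * η) * (δ * (C * τ ^ (ρ - 1))) := by
          apply mul_le_mul_of_nonneg_right _ (by positivity)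
          nlinarith
      _ = _ := by ring
  calc (2 * (Vs c * ρ) * ((1 - δ) ^ (ρ - 1) * (1 - 3 * δ / 2)) - 2 * δ * C) * (η * τ ^ (ρ - 1)) =
      Vs c * (ρ * (τ ^ (ρ - 1) * (1 - δ) ^ (ρ - 1)) * (2 * η * (1 - 3 * δ / 2))) - 2 * δ * C * (η * τ ^ (ρ - 1)) := by ring
    _ ≤ Vs c * ((τ - η + h + (N - 1) * h) ^ ρ - (τ - η + h) ^ ρ) - N * Err a J h c := by linarith
    _ ≤ _ := h1.trans h2

/-- the upper bound at one scale -/
theorem det_upper {s : ℕ} {a c : Fin s → ℝ} (ha : ∀ i, 2 ≤ a i) (hac : ∀ i, a i ≤ c i) (hρ : 1 ≤ sg c) {J : ℕ}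
    {h η τ δ C : ℝ} (hh : 0 < h) (hδ0 : 0 < δ) (hδ : δ ≤ 1 / 4) (hhη : h ≤ δ * η) (hητ : η ≤ δ * τ)
    (hX : 2 * τ ≤ (3 : ℝ) ^ J)
    (hE : Err a J h c ≤ δ * (h * (C * τ ^ (sg c - 1)))) :
    (cnt c τ η : ℝ) ≤
    (2 * (Vs c * sg c) * ((1 + 3 * δ) ^ (sg c - 1) * (1 + 2 * δ)) + 4 * δ * C) * (η * τ ^ (sg c - 1)) := by
  classical
  have hη : 0 < η := by
    by_contra h1
    push Not at h1
    nlinarith
  have hτ : 0 < τ := by
    by_contra h1
    push Not at h1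
    nlinarith
  set ρ : ℝ := sg c with hρd
  have hV := Vs_nonneg c
  have hητ' : η ≤ τ / 4 := by nlinarith
  have hhη' : h ≤ η / 4 := by nlinarith
  -- the number of windows
  set F : ℕ := ⌈2 * η / h⌉₊ with hF
  have hF1 : 2 * η / h ≤ F := Nat.le_ceil _
  have hF2 : (F : ℝ) < 2 * η / h + 1 := Nat.ceil_lt_add_one (by positivity)
  rw [div_le_iff₀ hh] at hF1
  have hF3 : F * h < 2 * η + h := by
    have := mul_lt_mul_of_pos_right hF2 hh
    rwa [add_mul, one_mul, div_mul_cancel₀ _ hh.ne'] at this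
  have hF0 : (0 : ℝ) ≤ F := Nat.cast_nonneg _
  have ht : 0 < τ - η - h := by linarith
  have h1 := count_upper ha hac (J := J) hh (t := τ - η) ht (N := F + 1) (by push_cast; nlinarith)
  push_cast at h1
  -- the count
  have h2 : (cnt c τ η : ℝ) ≤ (((box a J).filter fun x => τ - η ≤ sp c x ∧ sp c x ≤ τ - η + (F + 1 - 1) * h).card : ℝ) := by
    rw [cnt_eq ha hac (by linarith : τ + η ≤ (3 : ℝ) ^ J)]
    exact Nat.cast_le.2 (card_le_card (monotone_filter_right _ fun x _ hx => by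
      rw [abs_lt] at hx
      constructor
      · linarith [hx.1]
      · have := hx.2
        nlinarith))
  -- the main term
  have h3 := bern_upper (a := τ - η - h) (b := τ - η + (F + 1) * h) ht (by nlinarith) hρ
  have h4 : (τ - η + (F + 1) * h) ^ (ρ - 1) ≤ (τ * (1 + 3 * δ)) ^ (ρ - 1) := by
    apply Real.rpow_le_rpow (by nlinarith) _ (by linarith)
    nlinarith
  rw [Real.mul_rpow hτ.le (by linarith)] at h4
  have h5 : (F + 2) * h ≤ 2 * η * (1 + 2 * δ) := by nlinarith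
  have h6 : 0 ≤ (1 + 3 * δ) ^ (ρ - 1) := Real.rpow_nonneg (by linarith) _
  have h7 : 0 < τ ^ (ρ - 1) := Real.rpow_pos_of_pos hτ _
  have h8 : ρ * (τ - η + (F + 1) * h) ^ (ρ - 1) * (τ - η + (F + 1) * h - (τ - η - h)) ≤
      ρ * (τ ^ (ρ - 1) * (1 + 3 * δ) ^ (ρ - 1)) * (2 * η * (1 + 2 * δ)) := by
    have e1 : τ - η + (F + 1) * h - (τ - η - h) = (F + 2) * h := by ring
    rw [e1]
    apply mul_le_mul _ h5 (by positivity) (by positivity)
    exact mul_le_mul_of_nonneg_left h4 (by linarith)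
  have h9 := h3.trans h8
  have h10 := mul_le_mul_of_nonneg_left h9 hV
  -- the error
  have hE0 := Err_nonneg a J h c
  have hc0 : 0 ≤ C := by
    by_contra h11
    push Not at h11
    have : h * (C * τ ^ (ρ - 1)) < 0 := mul_neg_of_pos_of_neg hh (mul_neg_of_neg_of_pos h11 h7)
    nlinarith
  have h11 : (F + 1) * Err a J h c ≤ 4 * δ * C * (η * τ ^ (ρ - 1)) := by
    calc (F + 1) * Err a J h c ≤ (F + 1) * (δ * (h * (C * τ ^ (ρ - 1)))) := mul_le_mul_of_nonneg_left hE (by linarith)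
      _ = ((F + 1) * h) * (δ * (C * τ ^ (ρ - 1))) := by ring
      _ ≤ (4 * η) * (δ * (C * τ ^ (ρ - 1))) := by
          apply mul_le_mul_of_nonneg_right _ (by positivity)
          nlinarith
      _ = _ := by ring
  calc (cnt c τ η : ℝ) ≤ _ := h2
    _ ≤ _ := h1
    _ ≤ Vs c * (ρ * (τ ^ (ρ - 1) * (1 + 3 * δ) ^ (ρ - 1)) * (2 * η * (1 + 2 * δ))) + 4 * δ * C * (η * τ ^ (ρ - 1)) := by linarith
    _ = _ := by ring

end Pool.Agent.K7.H89.WE
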