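import Mathlib
import Pool.Agent.K7.H89.WE.E
import Pool.Agent.K7.H74.WS.Main

set_option autoImplicit false

/-! Waring's problem with almost all exponents: the asymptotic formula for almost all exponents. -/

namespace Pool.Agent.K7.H89.WE
open Finset MeasureTheory Filter
open Pool.Agent.K7.H74.WS (choose_delta)

/-- the constant -/
noncomputable def CE : ℝ := 1 + 4 * Real.pi

lemma CE_pos : 0 < CE := by unfold CE; have := Real.pi_pos; positivity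

theorem Err_ratio {s : ℕ} {a b : Fin s → ℝ} {B ρ : ℝ} (H : Box a b B ρ) (hs : 2 ≤ sg a) {θ δ : ℝ}
    (h1 : δ ≤ ρ / 2 - (sg a - sg b)) (h2 : δ ≤ sg b - 1 - θ - sg a / 2) (J : ℕ) :
    ∫ c, Err a J (((3 : ℝ) ^ J) ^ (-θ)) c ∂(mu a b) ≤
      CE * (6 * LB B J) ^ s * ((3 : ℝ) ^ J) ^ (-δ) * (((3 : ℝ) ^ J) ^ (-θ) * ((3 : ℝ) ^ J) ^ (sg b - 1)) := by
  set T : ℝ := (3 : ℝ) ^ J with hTd
  have hT1 : 1 ≤ T := one_le_pow₀ (by norm_num)
  have hT0 : 0 < T := by linarith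
  have hL := LB_ge B J
  set L := LB B J with hLd
  set Q : ℝ := T ^ (1 - ρ / 2) with hQ
  have hQ0 : 0 < Q := Real.rpow_pos_of_pos hT0 _
  have hη : 0 < T ^ (-θ) := Real.rpow_pos_of_pos hT0 _
  have h3 := Err_mean H hs J hQ0 hη
  have hpi := Real.pi_pos
  have hρ0 := H.hρ0
  set U : ℝ := T ^ (-δ) * (T ^ (-θ) * T ^ (sg b - 1)) with hU
  have hUe : U = T ^ (-δ - θ + (sg b - 1)) := by
    rw [hU, ← Real.rpow_add hT0, ← Real.rpow_add hT0]
    congr 1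
    ring
  have hmono : ∀ {x : ℝ}, x ≤ -δ - θ + (sg b - 1) → T ^ x ≤ U := by
    intro x hx
    rw [hUe]
    exact Real.rpow_le_rpow_of_exponent_le hT1 hx
  have t1 : T ^ (sg a / 2) ≤ U := hmono (by linarith)
  have t2 : T ^ (sg a - ρ) * (T ^ (-θ) / Q) ≤ U := by
    rw [hQ, ← Real.rpow_sub hT0, ← Real.rpow_add hT0]
    apply hmono
    linarith
  have t3 : Q ^ sg a * (T ^ (-θ) / Q) ≤ U := by
    rw [hQ, ← Real.rpow_mul hT0.le, ← Real.rpow_sub hT0, ← Real.rpow_add hT0]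
    apply hmono
    nlinarith
  refine h3.trans ?_
  have hL6 : 0 ≤ (6 * L) ^ s := by positivity
  calc (6 * L) ^ s * (T ^ (sg a / 2) + 2 * (T ^ (sg a - ρ) + Q ^ sg a) * (T ^ (-θ) / Q * Real.pi)) =
      (6 * L) ^ s * (T ^ (sg a / 2) + 2 * Real.pi * (T ^ (sg a - ρ) * (T ^ (-θ) / Q) + Q ^ sg a * (T ^ (-θ) / Q))) := by ring
    _ ≤ (6 * L) ^ s * (U + 2 * Real.pi * (U + U)) := by
        apply mul_le_mul_of_nonneg_left _ hL6
        have : 2 * Real.pi * (T ^ (sg a - ρ) * (T ^ (-θ) / Q) + Q ^ sg a * (T ^ (-θ) / Q)) ≤ 2 * Real.pi * (U + U) :=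
          mul_le_mul_of_nonneg_left (by linarith) (by positivity)
        linarith
    _ = CE * (6 * L) ^ s * U := by unfold CE; ring
    _ = _ := by rw [hU]; ring

lemma LB_le (B : ℝ) (J : ℕ) : 6 * LB B J ≤ (12 * KB B + 12) * (J + 1) ^ 2 := by
  unfold LB
  have hK := KB_ge B
  have hJ : (0 : ℝ) ≤ J := Nat.cast_nonneg _
  have h1 : (1 : ℝ) ≤ (J + 1) ^ 2 := one_le_pow₀ (by linarith)
  have h2 : (J : ℝ) * (KB B * (2 * J + 2)) ≤ 2 * KB B * (J + 1) ^ 2 := by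
    have e : 2 * KB B * ((J : ℝ) + 1) ^ 2 - J * (KB B * (2 * J + 2)) = 2 * KB B * (J + 1) := by ring
    have : 0 ≤ 2 * KB B * ((J : ℝ) + 1) := by positivity
    linarith
  nlinarith

lemma summ (s : ℕ) (B : ℝ) {δ : ℝ} (hd : 0 < δ) :
    Summable fun J : ℕ => ((J : ℝ) + 1) * (CE * (6 * LB B J) ^ s * ((3 : ℝ) ^ J) ^ (-δ)) := by
  set r : ℝ := (3 : ℝ) ^ (-δ) with hr
  have hr0 : 0 < r := Real.rpow_pos_of_pos (by norm_num) _
  have hr1 : r < 1 := Real.rpow_lt_one_of_one_lt_of_neg (by norm_num) (by linarith)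
  have hK := KB_ge B
  have hCE := CE_pos
  have h1 : Summable fun J : ℕ => (J : ℝ) ^ (2 * s + 1) * r ^ J :=
    summable_pow_mul_geometric_of_norm_lt_one _ (by rwa [Real.norm_of_nonneg hr0.le])
  have h2 : Summable fun J : ℕ => ((J + 1 : ℕ) : ℝ) ^ (2 * s + 1) * r ^ (J + 1) := (summable_nat_add_iff 1).2 h1
  have h3 := h2.mul_left (CE * (12 * KB B + 12) ^ s * r⁻¹)
  refine Summable.of_nonneg_of_le (fun J => ?_) (fun J => ?_) h3
  · have := LB_ge B J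
    have : 0 ≤ (6 * LB B J) ^ s := by positivity
    positivity
  · have e1 : ((3 : ℝ) ^ J) ^ (-δ) = r ^ J := by
      rw [hr, ← Real.rpow_natCast, ← Real.rpow_mul (by norm_num), ← Real.rpow_natCast, ← Real.rpow_mul (by norm_num)]
      congr 1
      ring
    rw [e1]
    have e2 : (6 * LB B J) ^ s ≤ ((12 * KB B + 12) * ((J : ℝ) + 1) ^ 2) ^ s :=
      pow_le_pow_left₀ (by linarith [LB_ge B J]) (LB_le B J) _
    calc ((J : ℝ) + 1) * (CE * (6 * LB B J) ^ s * r ^ J) ≤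
        ((J : ℝ) + 1) * (CE * ((12 * KB B + 12) * ((J : ℝ) + 1) ^ 2) ^ s * r ^ J) := by gcongr
      _ = CE * (12 * KB B + 12) ^ s * r⁻¹ * (((J + 1 : ℕ) : ℝ) ^ (2 * s + 1) * r ^ (J + 1)) := by
          push_cast
          rw [mul_pow, ← pow_mul, pow_succ r J, pow_succ ((J : ℝ) + 1) (2 * s)]
          field_simp

theorem ae_err {s : ℕ} {a b : Fin s → ℝ} {B ρ : ℝ} (H : Box a b B ρ) (hs : 2 ≤ sg a) {θ δ : ℝ} (hδ : 0 < δ)
    (h1 : δ ≤ ρ / 2 - (sg a - sg b)) (h2 : δ ≤ sg b - 1 - θ - sg a / 2) :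
    ∀ᵐ c ∂(mu a b), ∀ᶠ J : ℕ in atTop, Err a J (((3 : ℝ) ^ J) ^ (-θ)) c <
      (((3 : ℝ) ^ J) ^ (-θ) * ((3 : ℝ) ^ J) ^ (sg b - 1)) / ((J : ℝ) + 1) := by
  set N : ℕ → ℝ := fun J => ((3 : ℝ) ^ J) ^ (-θ) * ((3 : ℝ) ^ J) ^ (sg b - 1) with hN
  have hN0 : ∀ J, 0 < N J := fun J => by positivity
  set D : ℕ → Set (Fin s → ℝ) := fun J => {c | N J / ((J : ℝ) + 1) ≤ Err a J (((3 : ℝ) ^ J) ^ (-θ)) c} with hD
  have h3 : ∀ J, mu a b (D J) ≤ ENNReal.ofReal (((J : ℝ) + 1) * (CE * (6 * LB B J) ^ s * ((3 : ℝ) ^ J) ^ (-δ))) := by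
    intro J
    have hJ : (0 : ℝ) < (J : ℝ) + 1 := by positivity
    have h4 := mul_meas_ge_le_integral_of_nonneg (μ := mu a b)
      (Eventually.of_forall fun c => Err_nonneg a J (((3 : ℝ) ^ J) ^ (-θ)) c)
      (Err_meas a b J (((3 : ℝ) ^ J) ^ (-θ))) (N J / ((J : ℝ) + 1))
    have h5 := h4.trans (Err_ratio H hs h1 h2 J)
    have h6 : (mu a b).real (D J) ≤ ((J : ℝ) + 1) * (CE * (6 * LB B J) ^ s * ((3 : ℝ) ^ J) ^ (-δ)) := by
      have h7 : N J / ((J : ℝ) + 1) * (mu a b).real (D J) ≤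
        CE * (6 * LB B J) ^ s * ((3 : ℝ) ^ J) ^ (-δ) * N J := h5
      rw [div_mul_eq_mul_div, div_le_iff₀ hJ] at h7
      have h8 : N J * (mu a b).real (D J) ≤ N J * (((J : ℝ) + 1) * (CE * (6 * LB B J) ^ s * ((3 : ℝ) ^ J) ^ (-δ))) := by
        calc N J * (mu a b).real (D J) ≤ CE * (6 * LB B J) ^ s * ((3 : ℝ) ^ J) ^ (-δ) * N J * ((J : ℝ) + 1) := h7
          _ = _ := by ring
      exact le_of_mul_le_mul_left h8 (hN0 J)
    rw [← ENNReal.ofReal_toReal (measure_ne_top (mu a b) (D J))]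
    exact ENNReal.ofReal_le_ofReal h6
  have h4 : (∑' J, mu a b (D J)) ≠ ⊤ := by
    refine ne_top_of_le_ne_top (summ s B hδ).tsum_ofReal_ne_top (ENNReal.tsum_le_tsum h3)
  filter_upwards [ae_eventually_notMem h4] with c hc
  filter_upwards [hc] with J hJ
  exact not_le.1 hJ

/-- the asymptotic formula for good exponents -/
theorem det_final {s : ℕ} {a b c : Fin s → ℝ} (ha : ∀ i, 2 ≤ a i) (hac : ∀ i, a i ≤ c i) (hcb : ∀ i, c i ≤ b i)
    (hρ : 1 ≤ sg c) {κ θ : ℝ} (hκ : 0 ≤ κ) (hθ : κ < θ)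
    (hE : ∀ᶠ J : ℕ in atTop, Err a J (((3 : ℝ) ^ J) ^ (-θ)) c <
      (((3 : ℝ) ^ J) ^ (-θ) * ((3 : ℝ) ^ J) ^ (sg b - 1)) / ((J : ℝ) + 1)) {ε : ℝ} (hε : 0 < ε) :
    ∃ τ₀ : ℝ, ∀ τ η : ℝ, τ₀ ≤ τ → τ ^ (-κ) ≤ η → η ≤ 1 →
      |(cnt c τ η : ℝ) - 2 * (Vs c * sg c) * (η * τ ^ (sg c - 1))| ≤ ε * (η * τ ^ (sg c - 1)) := by
  have hθ0 : 0 < θ := lt_of_le_of_lt hκ hθ
  have hbc : sg b ≤ sg c := by
    unfold sg
    apply sum_le_sum
    intro i _
    apply one_div_le_one_div_of_le (by linarith [ha i, hac i]) (hcb i)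
  set ρ : ℝ := sg c with hρd
  set C : ℝ := (6 : ℝ) ^ (ρ - 1) with hC
  obtain ⟨δ, hδ0, hδ, hlow, hup⟩ := choose_delta (Vs c * ρ) C ρ hε
  obtain ⟨J₀, hJ₀⟩ := eventually_atTop.1 hE
  obtain ⟨J₁, hJ₁⟩ := exists_nat_gt (1 / δ)
  have hlim : Tendsto (fun τ : ℝ => τ ^ (κ - θ)) atTop (nhds 0) := by
    have := tendsto_rpow_neg_atTop (y := -(κ - θ)) (by linarith)
    simpa using this
  obtain ⟨τ₁, hτ₁⟩ := eventually_atTop.1 (hlim.eventually_lt_const hδ0)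
  refine ⟨max (max 1 τ₁) (max (1 / δ) ((3 : ℝ) ^ (max J₀ J₁))), ?_⟩
  intro τ η hτ hη hη1
  have t1 : 1 ≤ τ := (le_max_left _ _).trans ((le_max_left _ _).trans hτ)
  have t2 : τ₁ ≤ τ := (le_max_right _ _).trans ((le_max_left _ _).trans hτ)
  have t3 : 1 / δ ≤ τ := (le_max_left _ _).trans ((le_max_right _ _).trans hτ)
  have t4 : (3 : ℝ) ^ (max J₀ J₁) ≤ τ := (le_max_right _ _).trans ((le_max_right _ _).trans hτ)
  have hτ0 : 0 < τ := by linarith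
  obtain ⟨n, hn1, hn2⟩ := exists_nat_pow_near (by linarith : 1 ≤ 2 * τ) (by norm_num : (1 : ℝ) < 3)
  set J := n + 1 with hJ
  have hJmax : max J₀ J₁ < J := by
    by_contra h1
    push Not at h1
    have h2 : (3 : ℝ) ^ J ≤ (3 : ℝ) ^ (max J₀ J₁) := pow_le_pow_right₀ (by norm_num) h1
    linarith
  have hJ0 : J₀ ≤ J := (le_max_left _ _).trans hJmax.le
  have hJ1 : J₁ ≤ J := (le_max_right _ _).trans hJmax.le
  set X : ℝ := (3 : ℝ) ^ J with hX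
  have hX1 : 1 ≤ X := one_le_pow₀ (by norm_num)
  have hX0 : 0 < X := by linarith
  have hXτ : 2 * τ ≤ X := hn2.le
  have hXτ2 : X ≤ 6 * τ := by
    rw [hX, hJ, pow_succ]
    linarith
  -- the length of the windows
  set h : ℝ := X ^ (-θ) with hh
  have hh0 : 0 < h := Real.rpow_pos_of_pos hX0 _
  have hhη : h ≤ δ * η := by
    have h2 : X ^ (-θ) ≤ τ ^ (-θ) := Real.rpow_le_rpow_of_nonpos hτ0 (by linarith) (by linarith)
    have h3 : τ ^ (-θ) = τ ^ (κ - θ) * τ ^ (-κ) := by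
      rw [← Real.rpow_add hτ0]
      congr 1
      ring
    calc h ≤ τ ^ (κ - θ) * τ ^ (-κ) := h2.trans h3.le
      _ ≤ δ * η := mul_le_mul (hτ₁ τ t2).le hη (Real.rpow_nonneg hτ0.le _) hδ0.le
  have hητ : η ≤ δ * τ := by
    rw [div_le_iff₀ hδ0] at t3
    linarith
  -- the error
  have hXs : X ^ (sg b - 1) ≤ C * τ ^ (ρ - 1) := by
    calc X ^ (sg b - 1) ≤ X ^ (ρ - 1) := Real.rpow_le_rpow_of_exponent_le hX1 (by linarith)
      _ ≤ (6 * τ) ^ (ρ - 1) := Real.rpow_le_rpow hX0.le hXτ2 (by linarith)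
      _ = C * τ ^ (ρ - 1) := by rw [Real.mul_rpow (by norm_num) hτ0.le]
  have hErr : Err a J h c ≤ δ * (h * (C * τ ^ (ρ - 1))) := by
    refine (hJ₀ J hJ0).le.trans ?_
    have hJp : (0 : ℝ) < (J : ℝ) + 1 := by positivity
    rw [div_le_iff₀ hJp]
    have h1 : 1 ≤ δ * ((J : ℝ) + 1) := by
      rw [div_lt_iff₀ hδ0] at hJ₁
      have h2 : (J₁ : ℝ) ≤ J := by exact_mod_cast hJ1
      nlinarith
    have h2 : h * X ^ (sg b - 1) ≤ h * (C * τ ^ (ρ - 1)) := mul_le_mul_of_nonneg_left hXs hh0.le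
    have h3 : 0 ≤ h * (C * τ ^ (ρ - 1)) := (mul_nonneg hh0.le (Real.rpow_nonneg hX0.le _)).trans h2
    calc h * X ^ (sg b - 1) ≤ h * (C * τ ^ (ρ - 1)) := h2
      _ = 1 * (h * (C * τ ^ (ρ - 1))) := (one_mul _).symm
      _ ≤ (δ * ((J : ℝ) + 1)) * (h * (C * τ ^ (ρ - 1))) := mul_le_mul_of_nonneg_right h1 h3
      _ = _ := by ring
  have hl := det_lower ha hac hρ hh0 hδ0 hδ hhη hητ hXτ hErr
  have hu := det_upper ha hac hρ hh0 hδ0 hδ hhη hητ hXτ hErr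
  have hη0 : 0 < η := (Real.rpow_pos_of_pos hτ0 _).trans_le hη
  have hpos : 0 ≤ η * τ ^ (ρ - 1) := mul_nonneg hη0.le (Real.rpow_nonneg hτ0.le _)
  have hl2 := mul_le_mul_of_nonneg_right hlow hpos
  have hu2 := mul_le_mul_of_nonneg_right hup hpos
  rw [abs_le]
  constructor
  · linarith
  · linarith

/-- the asymptotic formula -/
def Asym {s : ℕ} (c : Fin s → ℝ) (κ : ℝ) : Prop :=
  ∀ ε : ℝ, 0 < ε → ∃ τ₀ : ℝ, ∀ τ η : ℝ, τ₀ ≤ τ → τ ^ (-κ) ≤ η → η ≤ 1 →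
      |(cnt c τ η : ℝ) - 2 * (Vs c * sg c) * (η * τ ^ (sg c - 1))| ≤ ε * (η * τ ^ (sg c - 1))

theorem box_ae {s : ℕ} {a b : Fin s → ℝ} {B ρ : ℝ} (H : Box a b B ρ) (hs : 2 ≤ sg b) {κ θ δ : ℝ} (hκ : 0 ≤ κ) (hθ : κ < θ)
    (hδ : 0 < δ) (h1 : δ ≤ ρ / 2 - (sg a - sg b)) (h2 : δ ≤ sg b - 1 - θ - sg a / 2) :
    ∀ᵐ c : Fin s → ℝ, (∀ i, c i ∈ Set.Ioc (a i) (b i)) → Asym c κ := by
  have hab : sg b ≤ sg a := by
    unfold sg
    apply sum_le_sum
    intro i _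
    apply one_div_le_one_div_of_le (by linarith [H.ha i]) (H.hab i)
  have h3 : ∀ᵐ c ∂(mu a b), (∀ i, c i ∈ Set.Ioc (a i) (b i)) → Asym c κ := by
    filter_upwards [ae_err H (hs.trans hab) hδ h1 h2] with c hc hc2
    intro ε hε
    have hbc : sg b ≤ sg c := by
      unfold sg
      apply sum_le_sum
      intro i _
      apply one_div_le_one_div_of_le (by linarith [H.ha i, (hc2 i).1]) (hc2 i).2
    exact det_final H.ha (fun i => (hc2 i).1.le) (fun i => (hc2 i).2) (by linarith) hκ hθ hc hε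
  have h4 : mu a b = volume.restrict (Set.univ.pi fun i => Set.Ioc (a i) (b i)) := by
    unfold mu
    rw [volume_pi, Measure.restrict_pi_pi]
  rw [h4, ae_restrict_iff' (MeasurableSet.univ_pi fun _ => measurableSet_Ioc)] at h3
  filter_upwards [h3] with c hc hc2
  exact hc (fun i _ => hc2 i) hc2

/-- **the asymptotic formula for almost all exponents** -/
theorem main (s : ℕ) : ∀ᵐ c : Fin s → ℝ, (∀ i, 2 ≤ c i) → 2 < sg c → ∀ κ : ℝ, κ < sg c / 2 - 1 → Asym c κ := by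
  classical
  -- the countable union
  have h1 : ∀ᵐ c : Fin s → ℝ, ∀ (a b : Fin s → ℚ) (κ θ : ℚ),
      (∃ B ρ δ : ℝ, Box (fun i => (a i : ℝ)) (fun i => (b i : ℝ)) B ρ ∧ 2 ≤ sg (fun i => (b i : ℝ)) ∧ 0 ≤ (κ : ℝ) ∧
        (κ : ℝ) < θ ∧ 0 < δ ∧ δ ≤ ρ / 2 - (sg (fun i => (a i : ℝ)) - sg (fun i => (b i : ℝ))) ∧
        δ ≤ sg (fun i => (b i : ℝ)) - 1 - θ - sg (fun i => (a i : ℝ)) / 2) →
      (∀ i, c i ∈ Set.Ioc (a i : ℝ) (b i)) → Asym c κ := by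
    rw [ae_all_iff]; intro a
    rw [ae_all_iff]; intro b
    rw [ae_all_iff]; intro κ
    rw [ae_all_iff]; intro θ
    by_cases hcond : ∃ B ρ δ : ℝ, Box (fun i => (a i : ℝ)) (fun i => (b i : ℝ)) B ρ ∧ 2 ≤ sg (fun i => (b i : ℝ)) ∧ 0 ≤ (κ : ℝ) ∧
        (κ : ℝ) < θ ∧ 0 < δ ∧ δ ≤ ρ / 2 - (sg (fun i => (a i : ℝ)) - sg (fun i => (b i : ℝ))) ∧
        δ ≤ sg (fun i => (b i : ℝ)) - 1 - θ - sg (fun i => (a i : ℝ)) / 2
    · obtain ⟨B, ρ, δ, H, e1, e2, e3, e4, e5, e6⟩ := hcond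
      filter_upwards [box_ae H e1 e2 e3 e4 e5 e6] with c hc _ hc2
      exact hc hc2
    · exact Eventually.of_forall fun c h => absurd h hcond
  have h2 : ∀ᵐ c : Fin s → ℝ, ∀ i, c i ≠ 2 := by
    rw [ae_all_iff]
    intro i
    have h4 : ∀ᵐ x : ℝ, x ≠ 2 := compl_mem_ae_iff.2 (measure_singleton (2 : ℝ))
    rw [volume_pi]
    exact (Measure.quasiMeasurePreserving_eval (fun _ : Fin s => (volume : Measure ℝ)) i).ae h4
  filter_upwards [h1, h2] with c hc hc2 hge hsg κ hκ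
  have hgt : ∀ i, 2 < c i := fun i => lt_of_le_of_ne (hge i) (hc2 i).symm
  have hpos : 0 < sg c / 2 - 1 := by linarith
  obtain ⟨κ', hκ1, hκ2⟩ := exists_rat_btwn (max_lt hκ hpos)
  obtain ⟨θ, hθ1, hθ2⟩ := exists_rat_btwn hκ2
  have hκ0 : 0 ≤ (κ' : ℝ) := (le_max_right _ _).trans hκ1.le
  set B : ℝ := 1 + ∑ i, c i with hB
  have hcB : ∀ i, c i + 1 ≤ B := fun i => by
    have := single_le_sum (f := c) (fun j _ => by linarith [hgt j] : ∀ j ∈ univ, 0 ≤ c j) (mem_univ i)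
    rw [hB]; linarith
  have hB0 : 0 < B := by
    have : 0 ≤ ∑ i, c i := sum_nonneg fun j _ => by linarith [hgt j]
    rw [hB]; linarith
  set ρ : ℝ := 1 / (4 * B) with hρd
  have hρ0 : 0 < ρ := by positivity
  -- the radius of the box
  set g : ℝ := sg c / 2 - 1 - θ with hg
  have hg0 : 0 < g := by rw [hg]; linarith
  obtain ⟨r, hr0, hr1, hr2, hr3, hr4⟩ : ∃ r : ℝ, 0 < r ∧ r ≤ 1 / 8 ∧ (s : ℝ) * r ≤ ρ / 8 ∧ (s : ℝ) * r ≤ g / 4 ∧
      (s : ℝ) * r ≤ sg c - 2 := by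
    have hs1 : (0 : ℝ) < (s : ℝ) + 1 := by positivity
    set m : ℝ := min (1 / 8) (min (ρ / 8) (min (g / 4) (sg c - 2))) with hm
    have hm0 : 0 < m := lt_min (by norm_num) (lt_min (by positivity) (lt_min (by positivity) (by linarith)))
    have hsm : (s : ℝ) * (m / (s + 1)) ≤ m := by
      rw [mul_div_assoc', div_le_iff₀ hs1]
      nlinarith
    refine ⟨m / (s + 1), by positivity, ?_, hsm.trans ?_, hsm.trans ?_, hsm.trans ?_⟩
    · have : m / (s + 1) ≤ m := div_le_self hm0.le (by linarith [(Nat.cast_nonneg s : (0 : ℝ) ≤ s)])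
      exact this.trans (min_le_left _ _)
    · exact (min_le_right _ _).trans (min_le_left _ _)
    · exact (min_le_right _ _).trans ((min_le_right _ _).trans (min_le_left _ _))
    · exact (min_le_right _ _).trans ((min_le_right _ _).trans (min_le_right _ _))
  have hex1 : ∀ i, ∃ q : ℚ, max 2 (c i - r) < q ∧ (q : ℝ) < c i := fun i =>
    exists_rat_btwn (max_lt (hgt i) (by linarith))
  have hex2 : ∀ i, ∃ q : ℚ, c i < q ∧ (q : ℝ) < c i + r := fun i => exists_rat_btwn (by linarith)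
  choose a ha1 ha2 using hex1
  choose b hb1 hb2 using hex2
  have ha3 : ∀ i, (2 : ℝ) < a i := fun i => (le_max_left _ _).trans_lt (ha1 i)
  have ha4 : ∀ i, c i - r < a i := fun i => (le_max_right _ _).trans_lt (ha1 i)
  have hlip : ∀ x y : ℝ, 2 ≤ x → 2 ≤ y → x ≤ y → 1 / x - 1 / y ≤ y - x := by
    intro x y hx hy hxy
    have e1 : 1 / x - 1 / y = (y - x) / (x * y) := by
      field_simp
    have e2 : 1 ≤ x * y := by nlinarith
    rw [e1, div_le_iff₀ (by linarith)]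
    exact le_mul_of_one_le_right (by linarith) e2
  have hsa : sg (fun i => (a i : ℝ)) ≤ sg c + s * r := by
    have : sg (fun i => (a i : ℝ)) - sg c ≤ s * r := by
      unfold sg
      rw [← sum_sub_distrib]
      have e1 : ∑ i : Fin s, (1 / (a i : ℝ) - 1 / c i) ≤ ∑ _i : Fin s, r := by
        apply sum_le_sum
        intro i _
        have := hlip (a i) (c i) (ha3 i).le (hgt i).le (ha2 i).le
        linarith [ha4 i]
      rw [sum_const, card_univ, Fintype.card_fin, nsmul_eq_mul] at e1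
      exact e1
    linarith
  have hsb : sg c - s * r ≤ sg (fun i => (b i : ℝ)) := by
    have : sg c - sg (fun i => (b i : ℝ)) ≤ s * r := by
      unfold sg
      rw [← sum_sub_distrib]
      have e1 : ∑ i : Fin s, (1 / c i - 1 / (b i : ℝ)) ≤ ∑ _i : Fin s, r := by
        apply sum_le_sum
        intro i _
        have := hlip (c i) (b i) (hgt i).le (by linarith [hgt i, hb1 i]) (hb1 i).le
        linarith [hb2 i]
      rw [sum_const, card_univ, Fintype.card_fin, nsmul_eq_mul] at e1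
      exact e1
    linarith
  have H : Box (fun i => (a i : ℝ)) (fun i => (b i : ℝ)) B ρ := by
    refine ⟨fun i => (ha3 i).le, fun i => by linarith [ha2 i, hb1 i], fun i => ?_, fun i => ?_, hρ0, fun i => ?_⟩
    · linarith [ha4 i, hb2 i]
    · linarith [hcB i, hb2 i]
    · rw [hρd]
      apply one_div_le_one_div_of_le (by linarith [ha3 i])
      linarith [hcB i, ha2 i]
  have hres := hc a b κ' θ ⟨B, ρ, min (ρ / 4) (g / 4), H, by linarith, hκ0, hθ1, lt_min (by positivity) (by positivity),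
    (min_le_left _ _).trans (by linarith), (min_le_right _ _).trans (by rw [hg] at *; linarith)⟩
    (fun i => ⟨ha2 i, (hb1 i).le⟩)
  -- from `κ'` to `κ`
  intro ε hε
  obtain ⟨τ₀, hτ₀⟩ := hres ε hε
  refine ⟨max 1 τ₀, fun τ η hτ hη hη1 => hτ₀ τ η ((le_max_right _ _).trans hτ) ?_ hη1⟩
  refine le_trans ?_ hη
  apply Real.rpow_le_rpow_of_exponent_le ((le_max_left _ _).trans hτ)
  linarith [(le_max_left κ 0).trans hκ1.le]

end Pool.Agent.K7.H89.WE
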