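import Mathlib
import Pool.Agent.K7.H89.WE.F

set_option autoImplicit false

/-! The volume of the body `∑ u_i ^ c_i < 1`, `u_i > 0`. -/

namespace Pool.Agent.K7.H89.WE
open Finset MeasureTheory

/-- the positive orthant -/
def Po (s : ℕ) : Set (Fin s → ℝ) := {u | ∀ i, 0 < u i}

lemma Po_eq (s : ℕ) : Po s = Set.univ.pi fun _ => Set.Ioi (0 : ℝ) := by
  ext u
  simp [Po]

lemma Po_meas (s : ℕ) : MeasurableSet (Po s) := by
  rw [Po_eq]
  exact MeasurableSet.univ_pi fun _ => measurableSet_Ioi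

lemma F_meas {s : ℕ} (c : Fin s → ℝ) : Measurable fun u : Fin s → ℝ => ∑ i, (u i) ^ (c i) :=
  Finset.measurable_fun_sum _ fun i _ => (measurable_pi_apply i).pow_const _

lemma A1_scale {s : ℕ} {c : Fin s → ℝ} (hc0 : ∀ i, 0 < c i) {t : ℝ} (ht : 0 < t) :
    volume {u : Fin s → ℝ | (∀ i, 0 < u i) ∧ ∑ i, (u i) ^ (c i) < t} = ENNReal.ofReal (t ^ sg c) * volume (A1 c) := by
  set r : Fin s → ℝ := fun i => t ^ (1 / c i) with hr
  have hr0 : ∀ i, 0 < r i := fun i => Real.rpow_pos_of_pos ht _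
  have hrc : ∀ i, (r i) ^ (c i) = t := fun i => by
    rw [hr]
    simp only
    rw [← Real.rpow_mul ht.le, one_div_mul_cancel (hc0 i).ne', Real.rpow_one]
  set f : (Fin s → ℝ) →ₗ[ℝ] (Fin s → ℝ) := Matrix.toLin' (Matrix.diagonal r) with hf
  have hfa : ∀ v i, f v i = r i * v i := fun v i => by
    rw [hf, Matrix.toLin'_apply, Matrix.mulVec_diagonal]
  have h1 : {u : Fin s → ℝ | (∀ i, 0 < u i) ∧ ∑ i, (u i) ^ (c i) < t} = f '' A1 c := by
    ext u
    simp only [Set.mem_ofPred_eq, Set.mem_image]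
    constructor
    · rintro ⟨h3, h2⟩
      refine ⟨fun i => u i / r i, ⟨fun i => div_pos (h3 i) (hr0 i), ?_⟩, ?_⟩
      · have e1 : ∀ i, (u i / r i) ^ (c i) = (u i) ^ (c i) / t := fun i => by
          rw [Real.div_rpow (h3 i).le (hr0 i).le, hrc]
        simp_rw [e1]
        rw [← sum_div, div_lt_one ht]
        exact h2
      · funext i
        rw [hfa]
        have := (hr0 i).ne'
        field_simp
    · rintro ⟨v, ⟨h2, h3⟩, rfl⟩
      have h4 : ∑ i, (f v i) ^ (c i) = t * ∑ i, (v i) ^ (c i) := by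
        rw [mul_sum]
        apply sum_congr rfl
        intro i _
        rw [hfa, Real.mul_rpow (hr0 i).le (h2 i).le, hrc]
      refine ⟨fun i => by rw [hfa]; exact mul_pos (hr0 i) (h2 i), ?_⟩
      rw [h4]
      calc t * ∑ i, (v i) ^ (c i) < t * 1 := mul_lt_mul_of_pos_left h3 ht
        _ = t := mul_one t
  have hdet : LinearMap.det f = t ^ sg c := by
    rw [hf, LinearMap.det_toLin', Matrix.det_diagonal, sg, Real.rpow_sum_of_pos ht]
  rw [h1, Measure.addHaar_image_linearMap, hdet, abs_of_pos (Real.rpow_pos_of_pos ht _)]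

lemma A1_fin {s : ℕ} {c : Fin s → ℝ} (hc0 : ∀ i, 0 < c i) : volume (A1 c) ≠ ⊤ := by
  have h1 : A1 c ⊆ Set.univ.pi fun _ => Set.Icc (0 : ℝ) 1 := by
    rintro u ⟨h2, h3⟩ i -
    refine ⟨(h2 i).le, ?_⟩
    by_contra h4
    push Not at h4
    have h5 : (1 : ℝ) ≤ (u i) ^ (c i) := Real.one_le_rpow h4.le (hc0 i).le
    have h6 := single_le_sum (f := fun i => (u i) ^ (c i)) (fun j _ => Real.rpow_nonneg (h2 j).le _) (mem_univ i)
    linarith
  refine ne_top_of_le_ne_top ?_ (measure_mono h1)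
  rw [volume_pi_pi]
  simp

lemma lap1 {s : ℕ} {c : Fin s → ℝ} (hc0 : ∀ i, 0 < c i) :
    ∫⁻ u in Po s, ENNReal.ofReal (Real.exp (-∑ i, (u i) ^ (c i))) =
      ENNReal.ofReal (∏ i, Real.Gamma (1 + 1 / c i)) := by
  have h1 : (volume.restrict (Po s) : Measure (Fin s → ℝ)) = Measure.pi fun _ => volume.restrict (Set.Ioi (0 : ℝ)) := by
    rw [Po_eq, volume_pi, Measure.restrict_pi_pi]
  have h2 : ∀ u : Fin s → ℝ, Real.exp (-∑ i, (u i) ^ (c i)) = ∏ i, Real.exp (-(u i) ^ (c i)) := fun u => by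
    rw [← Real.exp_sum, sum_neg_distrib]
  have h3 : ∀ i, Integrable (fun x : ℝ => Real.exp (-x ^ c i)) (volume.restrict (Set.Ioi (0 : ℝ))) := fun i => by
    have := integrableOn_rpow_mul_exp_neg_rpow (s := 0) (by norm_num : (-1 : ℝ) < 0) (hc0 i)
    simp only [Real.rpow_zero, one_mul] at this
    exact this
  rw [← ofReal_integral_eq_lintegral_ofReal, h1]
  · simp_rw [h2]
    rw [integral_fintype_prod_eq_prod (f := fun i (x : ℝ) => Real.exp (-x ^ c i))]
    congr 1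
    apply prod_congr rfl
    intro i _
    rw [integral_exp_neg_rpow (hc0 i), add_comm]
  · rw [h1]
    simp_rw [h2]
    exact Integrable.fintype_prod (f := fun i (x : ℝ) => Real.exp (-x ^ c i)) h3
  · exact Filter.Eventually.of_forall fun u => (Real.exp_pos _).le

lemma lap2 {s : ℕ} {c : Fin s → ℝ} (hc0 : ∀ i, 0 < c i) :
    ∫⁻ u in Po s, ENNReal.ofReal (Real.exp (-∑ i, (u i) ^ (c i))) =
      ENNReal.ofReal (Real.Gamma (sg c + 1)) * volume (A1 c) := by
  have hsg : 0 ≤ sg c := sum_nonneg fun i _ => by have := hc0 i; positivity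
  have h1 : ∀ u ∈ Po s, ENNReal.ofReal (Real.exp (-∑ i, (u i) ^ (c i))) =
      ∫⁻ t in Set.Ioi (0 : ℝ), ({p : (Fin s → ℝ) × ℝ | ∑ i, (p.1 i) ^ (c i) < p.2}.indicator
        (fun p => ENNReal.ofReal (Real.exp (-p.2)))) (u, t) := by
    intro u hu
    set y : ℝ := ∑ i, (u i) ^ (c i) with hy
    have hy0 : 0 ≤ y := sum_nonneg fun i _ => Real.rpow_nonneg (hu i).le _
    have e1 : ∀ t : ℝ, ({p : (Fin s → ℝ) × ℝ | ∑ i, (p.1 i) ^ (c i) < p.2}.indicator
        (fun p => ENNReal.ofReal (Real.exp (-p.2)))) (u, t) =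
        (Set.Ioi y).indicator (fun t => ENNReal.ofReal (Real.exp (-t))) t := by
      intro t
      simp only [Set.indicator, Set.mem_ofPred_eq, Set.mem_Ioi]
      rfl
    simp_rw [e1]
    rw [lintegral_indicator measurableSet_Ioi, Measure.restrict_restrict measurableSet_Ioi]
    have e2 : Set.Ioi y ∩ Set.Ioi 0 = Set.Ioi y := by
      rw [Set.inter_eq_left]
      exact Set.Ioi_subset_Ioi hy0
    rw [e2, ← ofReal_integral_eq_lintegral_ofReal (integrableOn_exp_neg_Ioi y)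
      (Filter.Eventually.of_forall fun t => (Real.exp_pos _).le), integral_exp_neg_Ioi]
  have hmS : MeasurableSet {p : (Fin s → ℝ) × ℝ | ∑ i, (p.1 i) ^ (c i) < p.2} :=
    measurableSet_lt ((F_meas c).comp measurable_fst) measurable_snd
  have hmf : Measurable ({p : (Fin s → ℝ) × ℝ | ∑ i, (p.1 i) ^ (c i) < p.2}.indicator
        (fun p => ENNReal.ofReal (Real.exp (-p.2)))) :=
    (ENNReal.measurable_ofReal.comp (Real.measurable_exp.comp measurable_snd.neg)).indicator hmS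
  rw [setLIntegral_congr_fun (Po_meas s) h1,
    lintegral_lintegral_swap (f := fun u t => ({p : (Fin s → ℝ) × ℝ | ∑ i, (p.1 i) ^ (c i) < p.2}.indicator
        (fun p => ENNReal.ofReal (Real.exp (-p.2)))) (u, t)) hmf.aemeasurable]
  have h2 : ∀ t ∈ Set.Ioi (0 : ℝ), (∫⁻ u in Po s, ({p : (Fin s → ℝ) × ℝ | ∑ i, (p.1 i) ^ (c i) < p.2}.indicator
        (fun p => ENNReal.ofReal (Real.exp (-p.2)))) (u, t)) =
      ENNReal.ofReal (Real.exp (-t) * t ^ (sg c + 1 - 1)) * volume (A1 c) := by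
    intro t ht
    have ht0 : (0 : ℝ) < t := ht
    have e1 : ∀ u : Fin s → ℝ, ({p : (Fin s → ℝ) × ℝ | ∑ i, (p.1 i) ^ (c i) < p.2}.indicator
        (fun p => ENNReal.ofReal (Real.exp (-p.2)))) (u, t) =
        ({u : Fin s → ℝ | ∑ i, (u i) ^ (c i) < t}).indicator (fun _ => ENNReal.ofReal (Real.exp (-t))) u := by
      intro u
      simp only [Set.indicator, Set.mem_ofPred_eq]
    simp_rw [e1]
    have hm : MeasurableSet {u : Fin s → ℝ | ∑ i, (u i) ^ (c i) < t} := measurableSet_lt (F_meas c) measurable_const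
    rw [lintegral_indicator hm, Measure.restrict_restrict hm, setLIntegral_const]
    have e2 : {u : Fin s → ℝ | ∑ i, (u i) ^ (c i) < t} ∩ Po s =
        {u : Fin s → ℝ | (∀ i, 0 < u i) ∧ ∑ i, (u i) ^ (c i) < t} := by
      ext u
      simp only [Po, Set.mem_inter_iff, Set.mem_ofPred_eq]
      exact and_comm
    rw [e2, A1_scale hc0 ht0, ← mul_assoc, ← ENNReal.ofReal_mul (Real.exp_pos _).le, add_sub_cancel_right]
  rw [setLIntegral_congr_fun measurableSet_Ioi h2, lintegral_mul_const', Real.Gamma_eq_integral (by linarith),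
    ofReal_integral_eq_lintegral_ofReal]
  · exact Real.GammaIntegral_convergent (by linarith)
  · exact (ae_restrict_iff' measurableSet_Ioi).2 (Filter.Eventually.of_forall fun t ht =>
      mul_nonneg (Real.exp_pos _).le (Real.rpow_nonneg (le_of_lt ht) _))
  · exact A1_fin hc0

/-- **the volume** -/
theorem Vs_eq {s : ℕ} {c : Fin s → ℝ} (hc0 : ∀ i, 0 < c i) :
    Vs c = (∏ i, Real.Gamma (1 + 1 / c i)) / Real.Gamma (sg c + 1) := by
  have hsg : 0 ≤ sg c := sum_nonneg fun i _ => by have := hc0 i; positivity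
  have h1 := (lap2 hc0).symm.trans (lap1 hc0)
  have hG : 0 < Real.Gamma (sg c + 1) := Real.Gamma_pos_of_pos (by linarith)
  have hP : 0 ≤ ∏ i, Real.Gamma (1 + 1 / c i) := prod_nonneg fun i _ =>
    (Real.Gamma_pos_of_pos (by have := hc0 i; positivity)).le
  have h2 := congrArg ENNReal.toReal h1
  rw [ENNReal.toReal_mul, ENNReal.toReal_ofReal hG.le, ENNReal.toReal_ofReal hP] at h2
  rw [eq_div_iff hG.ne', ← h2, mul_comm]
  rfl

/-- the density -/
theorem Vs_sg {s : ℕ} {c : Fin s → ℝ} (hc0 : ∀ i, 0 < c i) (hsg : 0 < sg c) :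
    Vs c * sg c = (∏ i, Real.Gamma (1 + 1 / c i)) / Real.Gamma (sg c) := by
  have hG : 0 < Real.Gamma (sg c) := Real.Gamma_pos_of_pos hsg
  rw [Vs_eq hc0, Real.Gamma_add_one hsg.ne']
  field_simp

end Pool.Agent.K7.H89.WE
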